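import Pool.Agent.T9h44.LG.Spec
import Pool.Agent.T9h31.LG.Planch

/-!
# The recursion (helper41): `S_rec` of `T9h44.LG.Spec`
-/

set_option autoImplicit false

namespace Pool.Agent.T9h41.LG

open MeasureTheory Real Pool.Agent.T9h44.LG Pool.Agent.T9h31.LG
open scoped ENNReal ComplexConjugate

/-! ### measurability -/

lemma measurable_al : Measurable al := by
  unfold T9h44.LG.al; fun_prop

lemma measurable_qq : Measurable qq := by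
  unfold T9h44.LG.qq; fun_prop

lemma measurable_om : Measurable om := by
  unfold T9h44.LG.om; fun_prop

lemma measurable_psi3 : Measurable psi3 := by
  unfold T9h44.LG.psi3; fun_prop

lemma measurable_Wt (α s ρ : ℝ) : Measurable (Wt α s ρ) := by
  unfold T9h44.LG.Wt
  have h := measurable_om
  have h1 : Measurable fun z : ℝ × ℝ => om ((z.1 + α * z.2) / ρ) := h.comp (by fun_prop)
  have h2 : Measurable fun z : ℝ × ℝ => om (s * z.2 / ρ) := h.comp (by fun_prop)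
  exact (h1.mul h2).const_mul _

lemma measurable_Uo {G : ℝ × ℝ → ℂ} (hG : Measurable G) :
    Measurable fun p : ℝ × (ℝ × ℝ) => Uo p.1 G p.2 := by
  unfold T9h44.LG.Uo
  exact (measurable_ee.comp (measurable_fst.mul (measurable_qq.comp measurable_snd))).mul
    (hG.comp measurable_snd)

lemma measurable_Ext_Uo {G : ℝ × ℝ → ℂ} (hG : Measurable G) :
    Measurable fun p : ℝ × (ℝ × ℝ) => Ext (Uo p.1 G) p.2 := by
  have h1 : Measurable fun q : (ℝ × (ℝ × ℝ)) × (ℝ × ℝ) =>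
      ee (q.1.2.1 * q.2.1 + q.1.2.2 * q.2.2) * Uo q.1.1 G q.2 := by
    refine Measurable.mul ?_ ?_
    · exact measurable_ee.comp (by fun_prop)
    · exact (measurable_Uo hG).comp
        (f := fun q : (ℝ × (ℝ × ℝ)) × (ℝ × ℝ) => (q.1.1, q.2)) (by fun_prop)
  exact (h1.stronglyMeasurable.integral_prod_right').measurable

lemma measurable_Av {G : ℝ × ℝ → ℂ} (hG : Measurable G) (α s ρ : ℝ) :
    Measurable fun p : ℝ × (ℝ × ℝ) => Av α s ρ (sq (Uo p.1 G)) p.2 := by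
  unfold T9h44.LG.Av T9h44.LG.sq
  have h2 : Measurable fun q : (ℝ × (ℝ × ℝ)) × (ℝ × ℝ) => Ext (Uo q.1.1 G) q.2 :=
    (measurable_Ext_Uo hG).comp
      (g := fun p : ℝ × (ℝ × ℝ) => Ext (Uo p.1 G) p.2)
      (f := fun q : (ℝ × (ℝ × ℝ)) × (ℝ × ℝ) => (q.1.1, q.2)) (by fun_prop)
  have h3 : Measurable fun q : (ℝ × (ℝ × ℝ)) × (ℝ × ℝ) =>
      ENNReal.ofReal (Wt α s ρ (q.1.2 - q.2)) :=
    ((measurable_Wt α s ρ).comp
      (f := fun q : (ℝ × (ℝ × ℝ)) × (ℝ × ℝ) => q.1.2 - q.2) (by fun_prop)).ennreal_ofReal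
  have h1 : Measurable fun q : (ℝ × (ℝ × ℝ)) × (ℝ × ℝ) =>
      ENNReal.ofReal (Wt α s ρ (q.1.2 - q.2)) * ‖Ext (Uo q.1.1 G) q.2‖ₑ ^ 2 :=
    h3.mul (h2.enorm.pow_const 2)
  exact h1.lintegral_prod_right'

lemma measurable_int_Av {G : ℝ × ℝ → ℂ} (hG : Measurable G) (α s ρ : ℝ) :
    Measurable fun γ : ℝ => ∫⁻ z : ℝ × ℝ, Av α s ρ (sq (Uo γ G)) z ^ 2 := by
  have h1 : Measurable fun q : ℝ × (ℝ × ℝ) => Av α s ρ (sq (Uo q.1 G)) q.2 ^ 2 :=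
    (measurable_Av hG α s ρ).pow_const 2
  exact h1.lintegral_prod_right'

/-! ### the pieces commute with the flow -/

lemma Gw_Uo (k : ℕ) (j : ℤ) (γ : ℝ) (G : ℝ × ℝ → ℂ) : Gw k j (Uo γ G) = Uo γ (Gw k j G) := by
  funext ζ
  unfold T9h44.LG.Gw T9h44.LG.Uo
  ring

lemma wid_nonneg (x : ℝ) : 0 ≤ wid x :=
  mul_nonneg (Real.smoothTransition.nonneg _) (Real.smoothTransition.nonneg _)

lemma wid_le_one (x : ℝ) : wid x ≤ 1 :=
  mul_le_one₀ (Real.smoothTransition.le_one _) (Real.smoothTransition.nonneg _)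
    (Real.smoothTransition.le_one _)

lemma abs_le_of_wid {x : ℝ} (h : wid x ≠ 0) : |x| ≤ 8 := by
  unfold T9h44.LG.wid at h
  rw [abs_le]
  constructor
  · by_contra hc
    push Not at hc
    exact h (by rw [Real.smoothTransition.zero_of_nonpos (x := 8 + x) (by linarith), mul_zero])
  · by_contra hc
    push Not at hc
    exact h (by rw [Real.smoothTransition.zero_of_nonpos (x := 8 - x) (by linarith), zero_mul])

lemma measurable_wid : Measurable wid := by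
  unfold T9h44.LG.wid
  have h : Measurable Real.smoothTransition := Real.smoothTransition.continuous.measurable
  exact (h.comp (by fun_prop)).mul (h.comp (by fun_prop))

lemma nice_Gw {G : ℝ × ℝ → ℂ} (hG : Nice G) (k : ℕ) (j : ℤ) : Nice (Gw k j G) := by
  obtain ⟨hm, ⟨B, hB⟩, r, hr⟩ := hG
  refine ⟨?_, ⟨B, fun ζ => ?_⟩, r, fun ζ hζ => hr ζ (right_ne_zero_of_mul hζ)⟩
  · unfold T9h44.LG.Gw
    exact (Complex.measurable_ofReal.comp (measurable_wid.comp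
      ((measurable_al.const_mul _).sub_const _))).mul hm
  · unfold T9h44.LG.Gw
    rw [norm_mul, Complex.norm_real, Real.norm_of_nonneg (wid_nonneg _)]
    exact (mul_le_of_le_one_left (norm_nonneg _) (wid_le_one _)).trans (hB ζ)

lemma cls_mono {δ δ' : ℝ} (h : δ ≤ δ') {G : ℝ × ℝ → ℂ} (hG : Cls δ G) : Cls δ' G := by
  refine ⟨hG.1, fun ζ hζ => ?_⟩
  obtain ⟨h1, h2, h3⟩ := hG.2 ζ hζ
  exact ⟨h1, by linarith, h3⟩

lemma cls_fr {δ : ℝ} {G : ℝ × ℝ → ℂ} (hG : Cls δ G) (k : ℕ) (j : ℤ)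
    (hN : Nice (fr (j / 2 ^ k) (1 / 2 ^ k) (Gw k j G))) :
    Cls δ (fr (j / 2 ^ k) (1 / 2 ^ k) (Gw k j G)) := by
  refine ⟨hN, fun ζ hζ => ?_⟩
  unfold T9h44.LG.fr T9h44.LG.Gw at hζ
  have h1 := left_ne_zero_of_mul hζ
  have h2 := hG.2 _ (right_ne_zero_of_mul hζ)
  have h3 := abs_le_of_wid (x := 2 ^ k * al (ζ.1, ζ.1 * (j / 2 ^ k) + 1 / 2 ^ k * ζ.2) - j)
    (fun h => h1 (by rw [h]; simp))
  obtain ⟨h4, h5, -⟩ := h2
  simp only at h4 h5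
  have h6 : (0 : ℝ) < ζ.1 := by linarith
  refine ⟨h4, h5, ?_⟩
  unfold T9h44.LG.al at h3
  simp only at h3
  have h7 : 2 ^ k * ((ζ.1 * (j / 2 ^ k) + 1 / 2 ^ k * ζ.2) / ζ.1) - (j : ℝ) = ζ.2 / ζ.1 := by
    field_simp
    ring
  rw [h7, abs_div, abs_of_pos h6, div_le_iff₀ h6] at h3
  exact h3

/-! ### small scales -/

lemma om_nonneg (x : ℝ) : 0 ≤ om x := by unfold T9h44.LG.om; positivity

lemma om_le_of_abs {x y : ℝ} (h : |y| ≤ |x|) : om x ≤ om y := by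
  unfold T9h44.LG.om
  have h1 : y ^ 2 ≤ x ^ 2 := sq_le_sq.2 h
  exact inv_anti₀ (by positivity) (pow_le_pow_left₀ (by positivity) (by linarith) 2)

lemma Wt_small {ρ : ℝ} (h0 : 0 < ρ) (h1 : ρ ≤ 1) (h2 : 1 ≤ 4 ^ 4 * ρ) (z : ℝ × ℝ) :
    Wt 0 1 ρ z ≤ 4 ^ 8 * Wt 0 1 1 z := by
  unfold T9h44.LG.Wt
  have h3 : ∀ x : ℝ, om (x / ρ) ≤ om x := by
    intro x
    refine om_le_of_abs ?_
    rw [abs_div, abs_of_pos h0, le_div_iff₀ h0]
    exact mul_le_of_le_one_right (abs_nonneg _) h1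
  have h4 : 1 / ρ ^ 2 ≤ 4 ^ 8 := by
    rw [div_le_iff₀ (by positivity)]
    nlinarith
  have h5 : om ((z.1 + 0 * z.2) / ρ) * om (1 * z.2 / ρ) ≤ om ((z.1 + 0 * z.2) / 1) *
      om (1 * z.2 / 1) := by
    rw [div_one, div_one]
    exact mul_le_mul (h3 _) (h3 _) (om_nonneg _) (om_nonneg _)
  have h6 : 0 ≤ om ((z.1 + 0 * z.2) / 1) * om (1 * z.2 / 1) := mul_nonneg (om_nonneg _) (om_nonneg _)
  calc _ ≤ 1 / ρ ^ 2 * (om ((z.1 + 0 * z.2) / 1) * om (1 * z.2 / 1)) :=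
        mul_le_mul_of_nonneg_left h5 (by positivity)
    _ ≤ 4 ^ 8 * (om ((z.1 + 0 * z.2) / 1) * om (1 * z.2 / 1)) :=
        mul_le_mul_of_nonneg_right h4 h6
    _ = _ := by ring

lemma Av_small {ρ : ℝ} (h0 : 0 < ρ) (h1 : ρ ≤ 1) (h2 : 1 ≤ 4 ^ 4 * ρ) (u : ℝ × ℝ → ℝ≥0∞)
    (hu : Measurable u) (z : ℝ × ℝ) : Av 0 1 ρ u z ≤ 4 ^ 8 * Av 0 1 1 u z := by
  unfold T9h44.LG.Av
  rw [← lintegral_const_mul]
  · refine lintegral_mono fun z' => ?_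
    rw [← mul_assoc]
    refine mul_le_mul' ?_ le_rfl
    refine (ENNReal.ofReal_le_ofReal (Wt_small h0 h1 h2 (z - z'))).trans (le_of_eq ?_)
    rw [ENNReal.ofReal_mul (by positivity)]
    congr 1
    rw [ENNReal.ofReal_pow (by norm_num)]
    norm_num
  · exact (((measurable_Wt 0 1 1).comp (by fun_prop)).ennreal_ofReal).mul hu

lemma measurable_sq {G : ℝ × ℝ → ℂ} (hG : Nice G) : Measurable (sq G) := by
  unfold T9h44.LG.sq
  exact ((continuous_Ext hG).measurable.enorm).pow_const 2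

lemma nice_Uo {G : ℝ × ℝ → ℂ} (hG : Nice G) (γ : ℝ) : Nice (Uo γ G) := by
  obtain ⟨hm, ⟨B, hB⟩, r, hr⟩ := hG
  refine ⟨?_, ⟨B, fun ζ => ?_⟩, r, fun ζ hζ => hr ζ (right_ne_zero_of_mul hζ)⟩
  · exact (measurable_Uo hm).comp (measurable_const.prodMk measurable_id)
  · unfold T9h44.LG.Uo
    rw [norm_mul, norm_ee, one_mul]
    exact hB ζ

lemma TT_small {ρ R : ℝ} (h0 : 0 < ρ) (h1 : ρ ≤ 1) (h2 : 1 ≤ 4 ^ 4 * ρ) {G : ℝ × ℝ → ℂ}
    (hG : Nice G) : TT ρ R G ≤ 4 ^ 16 * TT 1 R G := by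
  unfold T9h44.LG.TT
  rw [← lintegral_const_mul']
  · refine lintegral_mono fun γ => ?_
    rw [mul_left_comm]
    refine mul_le_mul' le_rfl ?_
    rw [← lintegral_const_mul']
    · refine lintegral_mono fun z => ?_
      refine (pow_le_pow_left' (Av_small h0 h1 h2 _ (measurable_sq (nice_Uo hG γ)) z) 2).trans
        (le_of_eq ?_)
      rw [mul_pow, ← pow_mul]
    · exact ENNReal.pow_ne_top (by norm_num)
  · exact ENNReal.pow_ne_top (by norm_num)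

lemma TT_scale (k a l M : ℕ) (hk : k ≤ a + l) (Q δ : ℝ) {G : ℝ × ℝ → ℂ} (hG : Cls δ G)
    (h : QB δ (4 ^ (a + l - k - 4)) (4 ^ (M - k)) Q) :
    TT ((4 : ℝ) ^ (((a + l : ℕ) : ℤ) - k - 4)) (4 ^ (M - k)) G ≤
      4 ^ 16 * (ENNReal.ofReal (Q * 4 ^ (M - k)) * ∫⁻ z : ℝ × ℝ, ‖Ext G z‖ₑ ^ 4) := by
  have h1 := h G hG
  rcases Nat.lt_or_ge (a + l - k) 4 with h4 | h4
  · rw [show a + l - k - 4 = 0 by omega, pow_zero] at h1
    refine (TT_small ?_ ?_ ?_ hG.1).trans (mul_le_mul' le_rfl h1)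
    · positivity
    · refine zpow_le_one_of_nonpos₀ (by norm_num) ?_
      push_cast
      omega
    · rw [show (4 : ℝ) ^ 4 * 4 ^ (((a + l : ℕ) : ℤ) - k - 4) = 4 ^ (((a + l : ℕ) : ℤ) - k) by
        rw [show (4 : ℝ) ^ 4 = (4 : ℝ) ^ (4 : ℤ) by norm_cast, ← zpow_add₀ (by norm_num)]
        congr 1
        ring]
      refine one_le_zpow₀ (by norm_num) ?_
      push_cast
      omega
  · have h5 : ((a + l : ℕ) : ℤ) - k - 4 = ((a + l - k - 4 : ℕ) : ℤ) := by omega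
    rw [h5, zpow_natCast]
    refine h1.trans ?_
    calc _ = 1 * (ENNReal.ofReal (Q * 4 ^ (M - k)) * ∫⁻ z : ℝ × ℝ, ‖Ext G z‖ₑ ^ 4) :=
          (one_mul _).symm
      _ ≤ _ := mul_le_mul' (one_le_pow₀ (by norm_num)) le_rfl

/-- change of the time variable -/
lemma lintegral_time (Φ : ℝ → ℝ≥0∞) {c : ℝ} (hc : 0 < c) :
    ∫⁻ γ : ℝ, Φ (c * γ) = ENNReal.ofReal c⁻¹ * ∫⁻ γ : ℝ, Φ γ := by
  have h1 := (Homeomorph.mulLeft₀ c hc.ne').measurableEmbedding.lintegral_map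
    (μ := (volume : Measure ℝ)) Φ
  have h2 : Measure.map (Homeomorph.mulLeft₀ c hc.ne') (volume : Measure ℝ) =
      ENNReal.ofReal |c⁻¹| • volume := Real.map_volume_mul_left hc.ne'
  rw [h2, lintegral_smul_measure, abs_of_pos (inv_pos.2 hc)] at h1
  exact h1.symm

lemma arr {Ct Cp L D q C4 : ℝ} (h1 : 0 ≤ Ct) (h2 : 0 ≤ Cp) (h3 : 0 ≤ L) (h4 : 0 ≤ D)
    (h5 : 0 ≤ q) (I : ℝ≥0∞) :
    ENNReal.ofReal Ct * ENNReal.ofReal Cp * (ENNReal.ofReal L * (ENNReal.ofReal D *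
      ENNReal.ofReal q * (ENNReal.ofReal C4 * I))) =
      ENNReal.ofReal (Ct * Cp * D * C4 * L * q) * I := by
  rw [show Ct * Cp * D * C4 * L * q = Ct * (Cp * (L * (D * (q * C4)))) by ring,
    ENNReal.ofReal_mul h1, ENNReal.ofReal_mul h2, ENNReal.ofReal_mul h3, ENNReal.ofReal_mul h4,
    ENNReal.ofReal_mul h5]
  ring

/-- one term of the sum -/
lemma term_le (hFR : S_fr) {l a M k : ℕ} {j : ℤ} {Q : ℝ} (hk : k ≤ a + l) (haM : a + l ≤ M)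
    {G : ℝ × ℝ → ℂ} (hG : Cls ((4 : ℝ) ^ l)⁻¹ G)
    (h : QB ((4 : ℝ) ^ l)⁻¹ (4 ^ (a + l - k - 4)) (4 ^ (M - k)) Q) :
    ∫⁻ γ : ℝ, ENNReal.ofReal (psi3 (γ / 4 ^ M)) *
      ∫⁻ z : ℝ × ℝ, Av (j / 2 ^ k) (1 / 2 ^ k) ((4 : ℝ) ^ (((a + l : ℕ) : ℤ) - k - 4))
        (sq (Gw k j (Uo γ G))) z ^ 2 ≤
      4 ^ 16 * ENNReal.ofReal (Q * 4 ^ M) * ∫⁻ z : ℝ × ℝ, ‖Ext (Gw k j G) z‖ₑ ^ 4 := by
  set α : ℝ := j / 2 ^ k with hα
  set s : ℝ := 1 / 2 ^ k with hs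
  set ρ : ℝ := (4 : ℝ) ^ (((a + l : ℕ) : ℤ) - k - 4) with hρ
  have hs0 : 0 < s := by positivity
  have hρ0 : 0 < ρ := by positivity
  have hN := nice_Gw hG.1 k j
  have hN1 : ∀ ζ, Gw k j G ζ ≠ 0 → 1 ≤ ζ.1 := fun ζ hζ => (hG.2 ζ (right_ne_zero_of_mul hζ)).1
  obtain ⟨h1, -, h3, h4⟩ := hFR α s hs0 (Gw k j G) hN hN1
  have hC := cls_fr hG k j h1
  have h5 : ∀ γ : ℝ, ENNReal.ofReal (psi3 (γ / 4 ^ M)) *
      ∫⁻ z : ℝ × ℝ, Av α s ρ (sq (Gw k j (Uo γ G))) z ^ 2 =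
      ENNReal.ofReal (s ^ 3) * (fun γ' : ℝ => ENNReal.ofReal (psi3 (γ' / 4 ^ (M - k))) *
        ∫⁻ z : ℝ × ℝ, Av 0 1 ρ (sq (Uo γ' (fr α s (Gw k j G)))) z ^ 2) (s ^ 2 * γ) := by
    intro γ
    rw [Gw_Uo, h3 γ ρ hρ0]
    simp only
    have h6 : s ^ 2 * γ / 4 ^ (M - k) = γ / 4 ^ M := by
      have h7 : (4 : ℝ) ^ M = 4 ^ (M - k) * 4 ^ k := by
        rw [← pow_add]
        congr 1
        omega
      have h8 : (4 : ℝ) ^ k = 2 ^ k * 2 ^ k := by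
        rw [← mul_pow]
        norm_num
      rw [h7, h8, hs]
      field_simp
    rw [h6]
    ring
  rw [lintegral_congr h5, lintegral_const_mul', lintegral_time
    (fun γ' : ℝ => ENNReal.ofReal (psi3 (γ' / 4 ^ (M - k))) *
        ∫⁻ z : ℝ × ℝ, Av 0 1 ρ (sq (Uo γ' (fr α s (Gw k j G)))) z ^ 2)
    (by positivity : 0 < s ^ 2)]
  · change ENNReal.ofReal (s ^ 3) * (ENNReal.ofReal (s ^ 2)⁻¹ *
      TT ρ (4 ^ (M - k)) (fr α s (Gw k j G))) ≤ _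
    have h9 := TT_scale k a l M hk Q _ hC h
    calc _ ≤ ENNReal.ofReal (s ^ 3) * (ENNReal.ofReal (s ^ 2)⁻¹ *
          (4 ^ 16 * (ENNReal.ofReal (Q * 4 ^ (M - k)) *
            ∫⁻ z : ℝ × ℝ, ‖Ext (fr α s (Gw k j G)) z‖ₑ ^ 4))) :=
          mul_le_mul' le_rfl (mul_le_mul' le_rfl h9)
      _ = 4 ^ 16 * (ENNReal.ofReal (s ^ 2)⁻¹ * ENNReal.ofReal (Q * 4 ^ (M - k))) *
          (ENNReal.ofReal (s ^ 3) * ∫⁻ z : ℝ × ℝ, ‖Ext (fr α s (Gw k j G)) z‖ₑ ^ 4) := by ring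
      _ = _ := by
        rw [← h4, ← ENNReal.ofReal_mul (by positivity)]
        have h7 : (4 : ℝ) ^ M = 4 ^ (M - k) * 4 ^ k := by
          rw [← pow_add]
          congr 1
          omega
        have h8 : (s ^ 2)⁻¹ = 4 ^ k := by
          rw [hs, div_pow, one_pow, one_div, inv_inv, ← pow_mul, mul_comm k 2, pow_mul]
          norm_num
        rw [h8, h7]
        congr 3
        ring
  · exact ENNReal.ofReal_ne_top

theorem s_rec : S_pa → S_tm → S_fr → S_s4 → S_rec := by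
  rintro ⟨Cp, hCp, hPA⟩ ⟨Ct, hCt, hTM⟩ hFR ⟨C4, hC4, hS4⟩
  refine ⟨max 1 (Ct * Cp * 4 ^ 16 * C4), le_max_left _ _, ?_⟩
  intro l a M Q hl haM hQ hQB G hG
  have hG0 := hG
  set K := min (a + l) (2 * l + 3) with hK
  set v : ℝ → ℝ≥0∞ := fun γ => ∑ k ∈ Finset.range (K + 1),
    ∑ j ∈ Finset.Icc (-(9 * 2 ^ k) : ℤ) (9 * 2 ^ k),
      ∫⁻ z : ℝ × ℝ, Av (j / 2 ^ k) (1 / 2 ^ k) ((4 : ℝ) ^ (((a + l : ℕ) : ℤ) - k - 4))
        (sq (Gw k j (Uo γ G))) z ^ 2 with hv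
  have hmk : ∀ (k : ℕ) (j : ℤ), Measurable fun γ : ℝ => ∫⁻ z : ℝ × ℝ,
      Av (j / 2 ^ k) (1 / 2 ^ k) ((4 : ℝ) ^ (((a + l : ℕ) : ℤ) - k - 4))
        (sq (Gw k j (Uo γ G))) z ^ 2 := by
    intro k j
    simp only [Gw_Uo]
    exact measurable_int_Av (nice_Gw hG.1 k j).1 _ _ _
  have hmv : Measurable v :=
    Finset.measurable_sum _ fun k _ => Finset.measurable_sum _ fun j _ => hmk k j
  have hsum : ∀ w : ℝ → ℝ, (Measurable fun γ : ℝ => ENNReal.ofReal (w γ)) →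
      ∫⁻ γ : ℝ, ENNReal.ofReal (w γ) * v γ = ∑ k ∈ Finset.range (K + 1),
        ∑ j ∈ Finset.Icc (-(9 * 2 ^ k) : ℤ) (9 * 2 ^ k), ∫⁻ γ : ℝ, ENNReal.ofReal (w γ) *
          ∫⁻ z : ℝ × ℝ, Av (j / 2 ^ k) (1 / 2 ^ k) ((4 : ℝ) ^ (((a + l : ℕ) : ℤ) - k - 4))
            (sq (Gw k j (Uo γ G))) z ^ 2 := by
    intro w hw
    simp only [hv, Finset.mul_sum]
    rw [lintegral_finsetSum]
    · refine Finset.sum_congr rfl fun k _ => ?_
      rw [lintegral_finsetSum]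
      intro j _
      exact hw.mul (hmk k j)
    · intro k _
      exact Finset.measurable_sum _ fun j _ => hw.mul (hmk k j)
  have hmpsi : ∀ c R : ℝ, Measurable fun γ : ℝ => ENNReal.ofReal (psi3 ((γ - c) / R)) := by
    intro c R
    exact (measurable_psi3.comp (by fun_prop)).ennreal_ofReal
  have hmpsi' : ∀ R : ℝ, Measurable fun γ : ℝ => ENNReal.ofReal (psi3 (γ / R)) := by
    intro R
    exact (measurable_psi3.comp (by fun_prop)).ennreal_ofReal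
  have h1 : TT (4 ^ a) (4 ^ M) G ≤ ENNReal.ofReal Ct * ENNReal.ofReal Cp *
      ∫⁻ γ : ℝ, ENNReal.ofReal (psi3 (γ / 4 ^ M)) * v γ := by
    refine hTM (4 ^ (a + l)) (4 ^ M) (fun γ => ∫⁻ z : ℝ × ℝ, Av 0 1 (4 ^ a) (sq (Uo γ G)) z ^ 2)
      v (ENNReal.ofReal Cp) (by positivity) (pow_le_pow_right₀ (by norm_num) haM)
      (measurable_int_Av hG.1.1 _ _ _) hmv fun c => ?_
    rw [hsum (fun γ => psi3 ((γ - c) / 4 ^ (a + l))) (hmpsi c _)]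
    exact hPA a l G hl hG c
  refine h1.trans ?_
  rw [hsum (fun γ => psi3 (γ / 4 ^ M)) (hmpsi' _)]
  have h2 : ∀ k ∈ Finset.range (K + 1),
      ∑ j ∈ Finset.Icc (-(9 * 2 ^ k) : ℤ) (9 * 2 ^ k), ∫⁻ γ : ℝ,
        ENNReal.ofReal (psi3 (γ / 4 ^ M)) *
          ∫⁻ z : ℝ × ℝ, Av (j / 2 ^ k) (1 / 2 ^ k) ((4 : ℝ) ^ (((a + l : ℕ) : ℤ) - k - 4))
            (sq (Gw k j (Uo γ G))) z ^ 2 ≤
        4 ^ 16 * ENNReal.ofReal (Q * 4 ^ M) *
          (ENNReal.ofReal C4 * ∫⁻ z : ℝ × ℝ, ‖Ext G z‖ₑ ^ 4) := by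
    intro k hk
    have hk' : k ≤ K := Nat.lt_succ_iff.1 (Finset.mem_range.1 hk)
    have hk2 : k ≤ a + l := hk'.trans (min_le_left _ _)
    refine (Finset.sum_le_sum fun j _ => term_le hFR hk2 haM hG (hQB k hk')).trans ?_
    rw [← Finset.mul_sum]
    refine mul_le_mul' le_rfl (hS4 k _ G hG.1 fun ζ hζ => ?_)
    obtain ⟨h3, h4, -⟩ := hG.2 ζ hζ
    refine ⟨h3, h4.trans ?_⟩
    have : ((4 : ℝ) ^ l)⁻¹ ≤ 1 := inv_le_one_of_one_le₀ (one_le_pow₀ (by norm_num))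
    linarith
  refine (mul_le_mul' le_rfl (Finset.sum_le_sum h2)).trans ?_
  rw [Finset.sum_const, Finset.card_range, nsmul_eq_mul]
  have h3 : ((K + 1 : ℕ) : ℝ≥0∞) ≤ ENNReal.ofReal (2 * l + 4) := by
    rw [show (2 * l + 4 : ℝ) = ((2 * l + 4 : ℕ) : ℝ) by push_cast; ring, ENNReal.ofReal_natCast]
    have : K ≤ 2 * l + 3 := min_le_right _ _
    exact_mod_cast (by omega : K + 1 ≤ 2 * l + 4)
  have h4 : (4 : ℝ≥0∞) ^ 16 = ENNReal.ofReal (4 ^ 16) := by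
    rw [ENNReal.ofReal_pow (by norm_num)]
    norm_num
  calc ENNReal.ofReal Ct * ENNReal.ofReal Cp * (((K + 1 : ℕ) : ℝ≥0∞) *
        (4 ^ 16 * ENNReal.ofReal (Q * 4 ^ M) *
          (ENNReal.ofReal C4 * ∫⁻ z : ℝ × ℝ, ‖Ext G z‖ₑ ^ 4)))
      ≤ ENNReal.ofReal Ct * ENNReal.ofReal Cp * (ENNReal.ofReal (2 * l + 4) *
        (ENNReal.ofReal (4 ^ 16) * ENNReal.ofReal (Q * 4 ^ M) *
          (ENNReal.ofReal C4 * ∫⁻ z : ℝ × ℝ, ‖Ext G z‖ₑ ^ 4))) := by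
        rw [h4]
        exact mul_le_mul' le_rfl (mul_le_mul' h3 le_rfl)
    _ = ENNReal.ofReal (Ct * Cp * 4 ^ 16 * C4 * (2 * l + 4) * (Q * 4 ^ M)) *
          ∫⁻ z : ℝ × ℝ, ‖Ext G z‖ₑ ^ 4 :=
        arr hCt.le hCp.le (by positivity) (by positivity) (by positivity) _
    _ ≤ _ := by
        refine mul_le_mul' (ENNReal.ofReal_le_ofReal ?_) le_rfl
        have h5 : Ct * Cp * 4 ^ 16 * C4 ≤ max 1 (Ct * Cp * 4 ^ 16 * C4) := le_max_right _ _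
        have h6 : (0 : ℝ) ≤ (2 * l + 4) * Q * 4 ^ M := by positivity
        calc Ct * Cp * 4 ^ 16 * C4 * (2 * l + 4) * (Q * 4 ^ M) =
            Ct * Cp * 4 ^ 16 * C4 * ((2 * l + 4) * Q * 4 ^ M) := by ring
          _ ≤ max 1 (Ct * Cp * 4 ^ 16 * C4) * ((2 * l + 4) * Q * 4 ^ M) :=
              mul_le_mul_of_nonneg_right h5 h6
          _ = _ := by ring

end Pool.Agent.T9h41.LG
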