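import Pool.Agent.T9h41.LG.Pl
import Pool.Agent.T9h41.LG.Rec

/-!
# The induction (helper41): `S_fin` of `T9h44.LG.Spec`
-/

set_option autoImplicit false

namespace Pool.Agent.T9h41.LG

open MeasureTheory Real Pool.Agent.T9h44.LG Pool.Agent.T9h31.LG
open scoped ENNReal ComplexConjugate

lemma QB_mono {δ ρ R C C' : ℝ} (hR : 0 ≤ R) (h : C ≤ C') (hC : QB δ ρ R C) : QB δ ρ R C' := by
  intro G hG
  exact (hC G hG).trans (mul_le_mul' (ENNReal.ofReal_le_ofReal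
    (mul_le_mul_of_nonneg_right h hR)) le_rfl)

lemma weight_bound (x : ℝ) : psi3 x * (1 + |x|) ^ 4 ≤ 4 * (1 + x ^ 2)⁻¹ := by
  unfold T9h44.LG.psi3
  have h1 : (1 + |x|) ^ 2 ≤ 2 * (1 + x ^ 2) := by
    nlinarith [sq_nonneg (1 - |x|), sq_abs x]
  have h2 : (1 + |x|) ^ 4 ≤ 4 * (1 + x ^ 2) ^ 2 := by
    calc (1 + |x|) ^ 4 = ((1 + |x|) ^ 2) ^ 2 := by ring
      _ ≤ (2 * (1 + x ^ 2)) ^ 2 := pow_le_pow_left₀ (by positivity) h1 2
      _ = _ := by ring
  have h3 : (0 : ℝ) < 1 + x ^ 2 := by positivity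
  rw [inv_mul_le_iff₀ (by positivity)]
  calc (1 + |x|) ^ 4 ≤ 4 * (1 + x ^ 2) ^ 2 := h2
    _ = _ := by field_simp

lemma base_le (hBS : S_bs) : ∃ B : ℝ, 0 < B ∧ ∀ (l a M : ℕ), a ≤ M → M < a + l →
    QB ((4 : ℝ) ^ l)⁻¹ (4 ^ a) (4 ^ M) (B * (4 ^ l) ^ 4) := by
  obtain ⟨C, hC, h⟩ := hBS
  refine ⟨4 * π * C, by positivity, ?_⟩
  intro l a M haM hM G hG
  have hδ : ((4 : ℝ) ^ l)⁻¹ ≤ 1 := inv_le_one_of_one_le₀ (one_le_pow₀ (by norm_num))
  have hG1 := cls_mono hδ hG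
  set I := ∫⁻ z : ℝ × ℝ, ‖Ext G z‖ₑ ^ 4 with hI
  have h1 : ∀ γ : ℝ, ENNReal.ofReal (psi3 (γ / 4 ^ M)) *
      ∫⁻ z : ℝ × ℝ, Av 0 1 (4 ^ a) (sq (Uo γ G)) z ^ 2 ≤
      ENNReal.ofReal (C * (4 ^ l) ^ 4 * (4 * (1 + (γ / 4 ^ M) ^ 2)⁻¹)) * I := by
    intro γ
    refine (mul_le_mul' le_rfl (h G hG1 (4 ^ a) (one_le_pow₀ (by norm_num)) γ)).trans ?_
    rw [← mul_assoc, ← ENNReal.ofReal_mul (by unfold T9h44.LG.psi3; positivity)]
    refine mul_le_mul' (ENNReal.ofReal_le_ofReal ?_) le_rfl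
    have h2 : 1 + |γ| / 4 ^ a ≤ 4 ^ l * (1 + |γ / 4 ^ M|) := by
      have h3 : (4 : ℝ) ^ M ≤ 4 ^ a * 4 ^ l := by
        rw [← pow_add]
        exact pow_le_pow_right₀ (by norm_num) hM.le
      have h4 : (1 : ℝ) ≤ 4 ^ l := one_le_pow₀ (by norm_num)
      have h5 : |γ| / 4 ^ a ≤ 4 ^ l * (|γ| / 4 ^ M) := by
        rw [div_le_iff₀ (by positivity), mul_assoc, mul_comm]
        rw [div_mul_eq_mul_div, div_mul_eq_mul_div, le_div_iff₀ (by positivity)]
        calc |γ| * 4 ^ M ≤ |γ| * (4 ^ a * 4 ^ l) := mul_le_mul_of_nonneg_left h3 (abs_nonneg _)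
          _ = _ := by ring
      rw [abs_div, abs_of_pos (by positivity : (0 : ℝ) < 4 ^ M)]
      nlinarith
    have h6 : (1 + |γ| / 4 ^ a) ^ 4 ≤ (4 ^ l) ^ 4 * (1 + |γ / 4 ^ M|) ^ 4 := by
      rw [← mul_pow]
      exact pow_le_pow_left₀ (by positivity) h2 4
    have h7 := weight_bound (γ / 4 ^ M)
    have h8 : (0 : ℝ) ≤ psi3 (γ / 4 ^ M) := by unfold T9h44.LG.psi3; positivity
    calc psi3 (γ / 4 ^ M) * (C * (1 + |γ| / 4 ^ a) ^ 4)
        ≤ psi3 (γ / 4 ^ M) * (C * ((4 ^ l) ^ 4 * (1 + |γ / 4 ^ M|) ^ 4)) := by gcongr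
      _ = C * (4 ^ l) ^ 4 * (psi3 (γ / 4 ^ M) * (1 + |γ / 4 ^ M|) ^ 4) := by ring
      _ ≤ _ := by gcongr
  have h2 : ∫⁻ γ : ℝ, ENNReal.ofReal (C * (4 ^ l) ^ 4 * (4 * (1 + (γ / 4 ^ M) ^ 2)⁻¹)) =
      ENNReal.ofReal (4 * π * C * (4 ^ l) ^ 4 * 4 ^ M) := by
    rw [← ofReal_integral_eq_lintegral_ofReal]
    · congr 1
      rw [integral_const_mul, integral_const_mul]
      have h3 := Measure.integral_comp_div (fun x : ℝ => (1 + x ^ 2)⁻¹) ((4 : ℝ) ^ M)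
      rw [h3, integral_univ_inv_one_add_sq, abs_of_pos (by positivity), smul_eq_mul]
      ring
    · have h3 : Integrable (fun x : ℝ => (1 + x ^ 2)⁻¹) := integrable_inv_one_add_sq
      exact ((h3.comp_div (by positivity : (4 : ℝ) ^ M ≠ 0)).const_mul 4).const_mul _
    · exact Filter.Eventually.of_forall fun γ => by positivity
  unfold T9h44.LG.TT
  refine (lintegral_mono h1).trans ?_
  rw [lintegral_mul_const _ (by fun_prop), h2]

lemma exists_l {C ε : ℝ} (hC : 1 ≤ C) (hε : 0 < ε) :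
    ∃ l : ℕ, 5 ≤ l ∧ C * (2 * l + 4) ≤ (4 : ℝ) ^ (ε * ((l - 4 : ℕ) : ℝ)) := by
  have h1 : Filter.Tendsto (fun n : ℕ => (4 : ℝ) ^ (ε * n) / (n : ℝ)) Filter.atTop
      Filter.atTop := by
    have h2 : Filter.Tendsto (fun x : ℝ => Real.exp (Real.log 4 * ε * x) / x ^ (1 : ℝ))
        Filter.atTop Filter.atTop :=
      tendsto_exp_mul_div_rpow_atTop 1 _ (mul_pos (Real.log_pos (by norm_num)) hε)
    have h3 := h2.comp tendsto_natCast_atTop_atTop
    refine h3.congr fun n => ?_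
    simp only [Function.comp, Real.rpow_one]
    rw [Real.rpow_def_of_pos (by norm_num)]
    congr 2
    ring
  have h4 := h1.eventually (Filter.eventually_ge_atTop (C * 14))
  obtain ⟨n, hn, hn1⟩ := (h4.and (Filter.eventually_ge_atTop 1)).exists
  refine ⟨n + 4, by omega, ?_⟩
  have h5 : (0 : ℝ) < n := by exact_mod_cast hn1
  have h6 : (1 : ℝ) ≤ n := by exact_mod_cast hn1
  rw [le_div_iff₀ h5] at hn
  rw [show n + 4 - 4 = n by omega]
  refine le_trans ?_ hn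
  push_cast
  nlinarith

theorem s_fin : S_rec → S_bs → S_fin := by
  rintro ⟨C, hC, hrec⟩ hBS
  obtain ⟨B, hB, hbase⟩ := base_le hBS
  intro ε hε
  obtain ⟨l, hl, hlK⟩ := exists_l hC hε
  set K : ℝ := C * (2 * l + 4) with hK
  have hK1 : 1 ≤ K := by
    have : (0 : ℝ) ≤ l := Nat.cast_nonneg l
    nlinarith
  refine ⟨l, B * (4 ^ l) ^ 4, by omega, by positivity, ?_⟩
  have key : ∀ n a M : ℕ, a ≤ M → M < a + (l + n * (l - 4)) →
      QB ((4 : ℝ) ^ l)⁻¹ (4 ^ a) (4 ^ M) (B * (4 ^ l) ^ 4 * K ^ n) := by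
    intro n
    induction n with
    | zero =>
      intro a M haM hM
      rw [pow_zero, mul_one]
      exact hbase l a M haM (by omega)
    | succ n ih =>
      intro a M haM hM
      by_cases h1 : M < a + l
      · refine QB_mono (by positivity) ?_ (hbase l a M haM h1)
        exact le_mul_of_one_le_right (by positivity) (one_le_pow₀ hK1)
      · have h2 := hrec l a M (B * (4 ^ l) ^ 4 * K ^ n) (by omega) (by omega) (by positivity)
          fun k hk => ?_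
        · refine QB_mono (by positivity) (le_of_eq ?_) h2
          rw [pow_succ, hK]
          ring
        · have hk2 : k ≤ a + l := hk.trans (min_le_left _ _)
          refine ih (a + l - k - 4) (M - k) (by omega) ?_
          have h3 : (n + 1) * (l - 4) = n * (l - 4) + (l - 4) := by ring
          rw [h3] at hM
          generalize n * (l - 4) = t at hM ⊢
          omega
  intro M
  have hpos : 0 < l - 4 := by omega
  have h1 := key (M / (l - 4)) 0 M (Nat.zero_le _) (by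
    have h2 := Nat.lt_div_mul_add (a := M) hpos
    omega)
  rw [pow_zero] at h1
  refine QB_mono (by positivity) ?_ h1
  refine mul_le_mul_of_nonneg_left ?_ (by positivity)
  calc K ^ (M / (l - 4)) ≤ ((4 : ℝ) ^ (ε * ((l - 4 : ℕ) : ℝ))) ^ (M / (l - 4)) :=
        pow_le_pow_left₀ (by positivity) hlK _
    _ = (4 : ℝ) ^ (ε * ((l - 4 : ℕ) : ℝ) * ((M / (l - 4) : ℕ) : ℝ)) := by
        rw [← Real.rpow_natCast, ← Real.rpow_mul (by norm_num)]
    _ ≤ _ := by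
        refine Real.rpow_le_rpow_of_exponent_le (by norm_num) ?_
        rw [mul_assoc]
        refine mul_le_mul_of_nonneg_left ?_ hε.le
        have h3 : (l - 4) * (M / (l - 4)) ≤ M := Nat.mul_div_le M (l - 4)
        exact_mod_cast h3

end Pool.Agent.T9h41.LG
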