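import Pool.Agent.T9h44.LG.Spec2
import Pool.Agent.T9h82.LS.KBd

/-!
# The kernel `KM` (helper41): closed form, size, measurability, integrability
-/

set_option autoImplicit false

namespace Pool.Agent.T9h41.LG

open MeasureTheory Real Pool.Agent.T9h44.LS4 Pool.Agent.T9h44.LG
open Pool.Agent.T9h82.LS (rate gamma_int integrable_Ker norm_Ker)
open Filter Topology Set

variable {n : ℕ}

lemma rate_re_pos {y : ℝ} (hy : 0 < y) (w : ℝ) (g z : Fin n → ℝ) : 0 < (rate y w g z).re := by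
  unfold T9h82.LS.rate
  simp only [Complex.add_re, Complex.ofReal_re, Complex.re_ofReal_mul, Complex.I_re, mul_zero,
    add_zero]
  positivity

lemma norm_rate_ge {y : ℝ} (hy : 0 < y) (w : ℝ) (g z : Fin n → ℝ) : y ≤ ‖rate y w g z‖ := by
  have h := Complex.abs_re_le_norm (rate y w g z)
  have e : (rate y w g z).re = 2 * π * y := by
    unfold T9h82.LS.rate
    simp only [Complex.add_re, Complex.ofReal_re, Complex.re_ofReal_mul, Complex.I_re, mul_zero,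
      add_zero]
  rw [e, abs_of_pos (by positivity)] at h
  nlinarith [Real.pi_gt_three]

theorem KM_eq (M : ℕ) {y : ℝ} (hy : 0 < y) (w : ℝ) (g z : Fin n → ℝ) :
    KM M n y w g z = (Real.Gamma (((n : ℝ) + 1) / 2 + M) : ℂ) *
      rate y w g z ^ (-((((n : ℝ) + 1) / 2 + M : ℝ) : ℂ)) := by
  rw [← gamma_int _ (by positivity) _ (rate_re_pos hy w g z)]
  unfold T9h44.LG.KM os
  refine setIntegral_congr_fun measurableSet_Ioi fun s _ => ?_
  rw [show ((n : ℝ) + 1) / 2 + M - 1 = ((n : ℝ) - 1) / 2 + M by ring]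
  rw [Complex.ofReal_mul, mul_assoc, Complex.ofReal_exp, ← Complex.exp_add]
  congr 2
  unfold T9h82.LS.rate
  push_cast
  ring

theorem norm_KM (M : ℕ) {y : ℝ} (hy : 0 < y) (w : ℝ) (g z : Fin n → ℝ) :
    ‖KM M n y w g z‖ = Real.Gamma (((n : ℝ) + 1) / 2 + M) /
      ‖rate y w g z‖ ^ (((n : ℝ) + 1) / 2 + M) := by
  rw [KM_eq M hy, norm_mul, Complex.norm_real, Real.norm_of_nonneg (by positivity),
    ← Complex.ofReal_neg, Complex.norm_cpow_real, Real.rpow_neg (norm_nonneg _)]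
  rfl

theorem measurable_KM (M : ℕ) {y : ℝ} (hy : 0 < y) (w : ℝ) (g : Fin n → ℝ) :
    Measurable (KM M n y w g) := by
  have h : KM M n y w g = fun z => (Real.Gamma (((n : ℝ) + 1) / 2 + M) : ℂ) *
      rate y w g z ^ (-((((n : ℝ) + 1) / 2 + M : ℝ) : ℂ)) := funext fun z => KM_eq M hy w g z
  rw [h]
  have hq : Measurable fun z : Fin n → ℝ => q g z := by
    unfold T9h44.LS4.q
    fun_prop
  unfold T9h82.LS.rate
  fun_prop

/-- `|KM M| ≤ C y^(-M) |Ker|` -/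
theorem norm_KM_le (M : ℕ) {y : ℝ} (hy : 0 < y) (w : ℝ) (g z : Fin n → ℝ) :
    ‖KM M n y w g z‖ ≤ Real.Gamma (((n : ℝ) + 1) / 2 + M) / Real.Gamma (((n : ℝ) + 1) / 2) *
      (y ^ M)⁻¹ * ‖Ker n y w g z‖ := by
  have h0 : 0 < ‖rate y w g z‖ := hy.trans_le (norm_rate_ge hy w g z)
  have h1 : ‖Ker n y w g z‖ = Real.Gamma (((n : ℝ) + 1) / 2) /
      ‖rate y w g z‖ ^ (((n : ℝ) + 1) / 2) := norm_Ker hy w g z
  rw [norm_KM M hy, h1, Real.rpow_add h0, Real.rpow_natCast]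
  have h2 : (y ^ M) ≤ ‖rate y w g z‖ ^ M := pow_le_pow_left₀ hy.le (norm_rate_ge hy w g z) M
  have h3 : 0 < Real.Gamma (((n : ℝ) + 1) / 2) := Real.Gamma_pos_of_pos (by positivity)
  have h4 : 0 < Real.Gamma (((n : ℝ) + 1) / 2 + M) := Real.Gamma_pos_of_pos (by positivity)
  have h5 : (‖rate y w g z‖ ^ M)⁻¹ ≤ (y ^ M)⁻¹ := inv_anti₀ (by positivity) h2
  calc Real.Gamma (((n : ℝ) + 1) / 2 + M) /
        (‖rate y w g z‖ ^ (((n : ℝ) + 1) / 2) * ‖rate y w g z‖ ^ M)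
      = Real.Gamma (((n : ℝ) + 1) / 2 + M) / ‖rate y w g z‖ ^ (((n : ℝ) + 1) / 2) *
          (‖rate y w g z‖ ^ M)⁻¹ := by
        field_simp
    _ ≤ Real.Gamma (((n : ℝ) + 1) / 2 + M) / ‖rate y w g z‖ ^ (((n : ℝ) + 1) / 2) *
          (y ^ M)⁻¹ := mul_le_mul_of_nonneg_left h5 (by positivity)
    _ = _ := by field_simp

theorem integrable_KM (hn : 1 ≤ n) (M : ℕ) {y : ℝ} (hy : 0 < y) (w : ℝ) {g : Fin n → ℝ}
    (hg : ∀ i, 0 < g i) : Integrable (KM M n y w g) := by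
  have h1 := (integrable_Ker hn hy w hg).norm.const_mul
    (Real.Gamma (((n : ℝ) + 1) / 2 + M) / Real.Gamma (((n : ℝ) + 1) / 2) * (y ^ M)⁻¹)
  refine Integrable.mono' h1 (measurable_KM M hy w g).aestronglyMeasurable ?_
  exact Eventually.of_forall fun z => norm_KM_le M hy w g z

end Pool.Agent.T9h41.LG
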