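import Pool.Agent.T9h44.LG.Spec
import Pool.Agent.T9h31.LG.Planch

/-!
# Plancherel for products (helper41): `S_pl1`, `S_pl2` of `T9h44.LG.Spec`
-/

set_option autoImplicit false

namespace Pool.Agent.T9h41.LG

open MeasureTheory Real Pool.Agent.T9h44.LG Pool.Agent.T9h31.LG
open scoped ENNReal ComplexConjugate

lemma measurable_conj' {f : ℝ × ℝ → ℂ} (hf : Measurable f) : Measurable fun z => conj (f z) :=
  Complex.continuous_conj.measurable.comp hf

/-- the correlation is measurable -/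
lemma measurable_cc {A B : ℝ × ℝ → ℂ} (hA : Measurable A) (hB : Measurable B) :
    Measurable (cc A B) := by
  have h1 : Measurable (fun p : (ℝ × ℝ) × (ℝ × ℝ) => A (p.2 + p.1) * conj (B p.2)) :=
    (hA.comp (measurable_snd.add measurable_fst)).mul
      ((Complex.continuous_conj.measurable.comp hB).comp measurable_snd)
  exact (h1.stronglyMeasurable.integral_prod_right').measurable

lemma nice_cc {A B : ℝ × ℝ → ℂ} (hA : Nice A) (hB : Nice B) : Nice (cc A B) := by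
  have hBi := Nice.integrable hB
  obtain ⟨hmA, ⟨bA, hbA⟩, rA, hrA⟩ := hA
  obtain ⟨hmB, ⟨bB, hbB⟩, rB, hrB⟩ := hB
  refine ⟨measurable_cc hmA hmB, ⟨∫ ζ, bA * ‖B ζ‖, fun h => ?_⟩, rA + rB, fun h hh => ?_⟩
  · unfold T9h44.LG.cc
    refine norm_integral_le_of_norm_le (hBi.norm.const_mul bA)
      (Filter.Eventually.of_forall fun ζ => ?_)
    rw [norm_mul, RCLike.norm_conj]
    exact mul_le_mul_of_nonneg_right (hbA _) (norm_nonneg _)
  · have h1 : ∃ ζ, A (ζ + h) ≠ 0 ∧ B ζ ≠ 0 := by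
      by_contra hc
      push Not at hc
      apply hh
      unfold T9h44.LG.cc
      rw [integral_eq_zero_of_ae]
      refine Filter.Eventually.of_forall fun ζ => ?_
      by_cases hz : A (ζ + h) = 0
      · simp [hz]
      · simp [hc ζ hz]
    obtain ⟨ζ, h2, h3⟩ := h1
    obtain ⟨h4, h5⟩ := hrA _ h2
    obtain ⟨h6, h7⟩ := hrB _ h3
    simp only [Prod.fst_add, Prod.snd_add] at h4 h5
    rw [abs_le] at *
    constructor
    · constructor <;> linarith [h4.1, h4.2, h6.1, h6.2]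
    · rw [abs_le]; constructor <;> linarith [h5.1, h5.2, h7.1, h7.2]

lemma nice_sum {ι : Type} [Fintype ι] {A : ι → ℝ × ℝ → ℂ} (hA : ∀ i, Nice (A i)) :
    Nice (fun z => ∑ i, A i z) := by
  classical
  refine ⟨Finset.measurable_sum _ fun i _ => (hA i).1, ?_, ?_⟩
  · choose b hb using fun i => (hA i).2.1
    exact ⟨∑ i, b i, fun ζ => (norm_sum_le _ _).trans (Finset.sum_le_sum fun i _ => hb i ζ)⟩
  · choose r hr using fun i => (hA i).2.2
    refine ⟨∑ i, |r i|, fun ζ hζ => ?_⟩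
    obtain ⟨i, -, hi⟩ := Finset.exists_ne_zero_of_sum_ne_zero hζ
    obtain ⟨h1, h2⟩ := hr i ζ hi
    have h3 : |r i| ≤ ∑ i, |r i| :=
      Finset.single_le_sum (f := fun i => |r i|) (fun i _ => abs_nonneg _) (Finset.mem_univ i)
    exact ⟨h1.trans ((le_abs_self _).trans h3), h2.trans ((le_abs_self _).trans h3)⟩

/-- the product of two extensions -/
lemma Ext_mul_conj {A B : ℝ × ℝ → ℂ} (hA : Nice A) (hB : Nice B) (z : ℝ × ℝ) :
    Ext A z * conj (Ext B z) = Ext (cc A B) z := by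
  have hAi := Nice.integrable hA
  have hBi := Nice.integrable hB
  have hBc : Integrable (fun ζ => conj (B ζ)) :=
    (Complex.conjLIE.toContinuousLinearEquiv.integrable_comp_iff (φ := B)).2 hBi
  have hint : Integrable (fun p : (ℝ × ℝ) × (ℝ × ℝ) => A p.1 * conj (B p.2))
      (volume.prod volume) := hAi.mul_prod hBc
  have hint2 : Integrable (fun p : (ℝ × ℝ) × (ℝ × ℝ) => A (p.1 + p.2) * conj (B p.2))
      (volume.prod volume) :=
    (measurePreserving_add_prod (volume : Measure (ℝ × ℝ)) (volume : Measure (ℝ × ℝ))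
      ).integrable_comp_of_integrable hint
  have hint3 : Integrable (fun p : (ℝ × ℝ) × (ℝ × ℝ) =>
      ee (z.1 * p.1.1 + z.2 * p.1.2) * (A (p.2 + p.1) * conj (B p.2)))
      (volume.prod volume) := by
    refine Integrable.bdd_mul (c := 1) ?_ ?_ ?_
    · simpa only [add_comm] using hint2
    · exact (continuous_ee.comp (by fun_prop)).aestronglyMeasurable
    · exact Filter.Eventually.of_forall fun p => (norm_ee _).le
  unfold T9h44.LG.Ext T9h44.LG.cc
  symm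
  calc ∫ h : ℝ × ℝ, ee (z.1 * h.1 + z.2 * h.2) * ∫ ζ : ℝ × ℝ, A (ζ + h) * conj (B ζ)
      = ∫ h : ℝ × ℝ, ∫ ζ : ℝ × ℝ, ee (z.1 * h.1 + z.2 * h.2) * (A (ζ + h) * conj (B ζ)) := by
        simp only [integral_const_mul]
    _ = ∫ ζ : ℝ × ℝ, ∫ h : ℝ × ℝ, ee (z.1 * h.1 + z.2 * h.2) * (A (ζ + h) * conj (B ζ)) :=
        integral_integral_swap hint3
    _ = ∫ ζ : ℝ × ℝ, (∫ h : ℝ × ℝ, ee (z.1 * h.1 + z.2 * h.2) * A h) *
          conj (ee (z.1 * ζ.1 + z.2 * ζ.2) * B ζ) := by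
        refine integral_congr_ae (Filter.Eventually.of_forall fun ζ => ?_)
        change ∫ h : ℝ × ℝ, ee (z.1 * h.1 + z.2 * h.2) * (A (ζ + h) * conj (B ζ)) = _
        have h1 := integral_add_left_eq_self (μ := (volume : Measure (ℝ × ℝ)))
          (fun h : ℝ × ℝ => ee (z.1 * (h - ζ).1 + z.2 * (h - ζ).2) * (A h * conj (B ζ))) ζ
        simp only [add_sub_cancel_left] at h1
        rw [h1]
        change _ = (∫ h : ℝ × ℝ, ee (z.1 * h.1 + z.2 * h.2) * A h) *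
          conj (ee (z.1 * ζ.1 + z.2 * ζ.2) * B ζ)
        rw [← integral_mul_const]
        refine integral_congr_ae (Filter.Eventually.of_forall fun h => ?_)
        simp only [map_mul, ee_conj, Prod.fst_sub, Prod.snd_sub]
        have h2 : z.1 * (h.1 - ζ.1) + z.2 * (h.2 - ζ.2) =
          (z.1 * h.1 + z.2 * h.2) + -(z.1 * ζ.1 + z.2 * ζ.2) := by ring
        rw [h2, ee_add]
        ring
    _ = _ := by
        rw [integral_const_mul, integral_conj]

lemma sum_Ext {ι : Type} [Fintype ι] {A : ι → ℝ × ℝ → ℂ} (hA : ∀ i, Nice (A i)) (z : ℝ × ℝ) :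
    ∑ i, Ext (A i) z = Ext (fun ζ => ∑ i, A i ζ) z := by
  unfold T9h44.LG.Ext
  rw [← integral_finsetSum]
  · simp only [Finset.mul_sum]
  · intro i _
    refine Integrable.bdd_mul (c := 1) (Nice.integrable (hA i)) ?_ ?_
    · exact (continuous_ee.comp (by fun_prop)).aestronglyMeasurable
    · exact Filter.Eventually.of_forall fun p => (norm_ee _).le

lemma sum_prod_eq {ι : Type} [Fintype ι] {A B : ι → ℝ × ℝ → ℂ} (hA : ∀ i, Nice (A i))
    (hB : ∀ i, Nice (B i)) (z : ℝ × ℝ) :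
    ∑ i, Ext (A i) z * conj (Ext (B i) z) = Ext (fun h => ∑ i, cc (A i) (B i) h) z := by
  rw [← sum_Ext fun i => nice_cc (hA i) (hB i)]
  exact Finset.sum_congr rfl fun i _ => Ext_mul_conj (hA i) (hB i) z

theorem s_pl2 : S_pl2 := by
  intro ι _ A B hA hB
  simp only [sum_prod_eq hA hB]
  exact planch_Ext (nice_sum fun i => nice_cc (hA i) (hB i))

/-! ### the band limited weight -/

lemma psi3_integrable : Integrable psi3 := by
  have h1 : Integrable (fun x : ℝ => (1 + x ^ 2)⁻¹) := integrable_inv_one_add_sq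
  refine h1.mono' ?_ (Filter.Eventually.of_forall fun x => ?_)
  · unfold T9h44.LG.psi3
    refine Continuous.aestronglyMeasurable (Continuous.inv₀ (by fun_prop) fun x => ?_)
    positivity
  · unfold T9h44.LG.psi3
    have h2 : (1 : ℝ) ≤ 1 + x ^ 2 := by nlinarith [sq_nonneg x]
    rw [Real.norm_of_nonneg (by positivity)]
    apply inv_anti₀ (by positivity)
    calc 1 + x ^ 2 = (1 + x ^ 2) ^ 1 := (pow_one _).symm
      _ ≤ (1 + x ^ 2) ^ 3 := pow_le_pow_right₀ h2 (by norm_num)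

lemma kap_integrable {κ κh : ℝ → ℝ} (hκ : Kap κ κh) : Integrable κ := by
  obtain ⟨hc, -, h0, ⟨C, hC⟩, -⟩ := hκ
  refine (psi3_integrable.const_mul C).mono' hc.aestronglyMeasurable
    (Filter.Eventually.of_forall fun x => ?_)
  rw [Real.norm_of_nonneg (h0 x)]
  exact hC x

/-- the shear -/
lemma shear_mp (α : ℝ) : MeasurePreserving (fun y : ℝ × ℝ => (y.1 + α * y.2, y.2))
    (volume : Measure (ℝ × ℝ)) volume := by
  have h1 : MeasurePreserving (fun p : ℝ × ℝ => (p.1, p.2 + α * p.1))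
      ((volume : Measure ℝ).prod volume) ((volume : Measure ℝ).prod volume) := by
    refine MeasurePreserving.skew_product (f := id) (g := fun a b => b + α * a)
      (MeasurePreserving.id _) ?_ ?_
    · fun_prop
    · refine Filter.Eventually.of_forall fun a => ?_
      exact map_add_right_eq_self volume (α * a)
  have h2 := (Measure.measurePreserving_swap (μ := (volume : Measure ℝ))
    (ν := (volume : Measure ℝ))).comp (h1.comp (Measure.measurePreserving_swap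
      (μ := (volume : Measure ℝ)) (ν := (volume : Measure ℝ))))
  exact h2

lemma prod_scaled_integrable {f g : ℝ → ℝ} (hf : Integrable f) (hg : Integrable g) {a b : ℝ}
    (ha : a ≠ 0) (hb : b ≠ 0) :
    Integrable (fun y : ℝ × ℝ => f (y.1 / a) * g (b * y.2)) := by
  exact Integrable.mul_prod (hf.comp_div ha) (hg.comp_mul_left' hb)

lemma Fe_eq (κ : ℝ → ℝ) (α s ρ : ℝ) (y : ℝ × ℝ) : Fe κ α s ρ y =
    (fun y : ℝ × ℝ => s / ρ ^ 2 * (κ (y.1 / ρ) * κ (s / ρ * y.2))) (y.1 + α * y.2, y.2) := by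
  unfold T9h44.LG.Fe
  simp only
  rw [show s * y.2 / ρ = s / ρ * y.2 by ring]

lemma Fe_integrable {κ κh : ℝ → ℝ} (hκ : Kap κ κh) {α s ρ : ℝ} (hs : 0 < s) (hρ : 0 < ρ) :
    Integrable (Fe κ α s ρ) := by
  have hk := kap_integrable hκ
  have h1 : Integrable (fun y : ℝ × ℝ => s / ρ ^ 2 * (κ (y.1 / ρ) * κ (s / ρ * y.2))) :=
    (prod_scaled_integrable hk hk hρ.ne' (div_pos hs hρ).ne').const_mul _
  have h2 := (shear_mp α).integrable_comp_of_integrable h1
  exact h2.congr (Filter.Eventually.of_forall fun y => (Fe_eq κ α s ρ y).symm)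

lemma kap_scaled {κ κh : ℝ → ℝ} (hκ : Kap κ κh) {a : ℝ} (ha : 0 < a) (ω : ℝ) :
    ∫ u : ℝ, ee (-(u * ω)) * ((κ (u / a) : ℝ) : ℂ) = a * ((κh (a * ω) : ℝ) : ℂ) := by
  obtain ⟨-, -, -, -, -, -, -, -, hF⟩ := hκ
  rw [← hF (a * ω)]
  have h1 := Measure.integral_comp_div (fun u : ℝ => ee (-(u * (a * ω))) * ((κ u : ℝ) : ℂ)) a
  rw [abs_of_pos ha] at h1
  have h2 : (fun u : ℝ => ee (-(u / a * (a * ω))) * ((κ (u / a) : ℝ) : ℂ)) =
      fun u : ℝ => ee (-(u * ω)) * ((κ (u / a) : ℝ) : ℂ) := by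
    funext u
    rw [show u / a * (a * ω) = u * ω by field_simp]
  rw [h2] at h1
  rw [h1, Complex.real_smul]

lemma Fe_fourier {κ κh : ℝ → ℝ} (hκ : Kap κ κh) {α s ρ : ℝ} (hs : 0 < s) (hρ : 0 < ρ)
    (h : ℝ × ℝ) :
    ∫ y : ℝ × ℝ, ((Fe κ α s ρ y : ℝ) : ℂ) * ee (-(y.1 * h.1 + y.2 * h.2)) =
      ((κh (ρ * h.1) * κh (ρ * (h.2 - α * h.1) / s) : ℝ) : ℂ) := by
  have hk := kap_integrable hκ
  have hc : Continuous κ := hκ.1
  set f : ℝ × ℝ → ℂ := fun y => ((s / ρ ^ 2 : ℝ) : ℂ) *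
    ((ee (-(y.1 * h.1)) * ((κ (y.1 / ρ) : ℝ) : ℂ)) *
      (ee (-(y.2 * (h.2 - α * h.1))) * ((κ (y.2 / (ρ / s)) : ℝ) : ℂ))) with hf
  have h1 : ∀ y : ℝ × ℝ, ((Fe κ α s ρ y : ℝ) : ℂ) * ee (-(y.1 * h.1 + y.2 * h.2)) =
      f (y.1 + α * y.2, y.2) := by
    intro y
    simp only [hf]
    unfold T9h44.LG.Fe
    have h2 : -(y.1 * h.1 + y.2 * h.2) =
      -((y.1 + α * y.2) * h.1) + -(y.2 * (h.2 - α * h.1)) := by ring
    rw [h2, ee_add, show y.2 / (ρ / s) = s * y.2 / ρ by field_simp]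
    push_cast
    ring
  simp only [h1]
  have hfm : AEStronglyMeasurable f (Measure.map (fun y : ℝ × ℝ => (y.1 + α * y.2, y.2))
      (volume : Measure (ℝ × ℝ))) := by
    have : Continuous f := by
      have e1 : Continuous fun y : ℝ × ℝ => ee (-(y.1 * h.1)) :=
        continuous_ee.comp (by fun_prop)
      have e2 : Continuous fun y : ℝ × ℝ => ee (-(y.2 * (h.2 - α * h.1))) :=
        continuous_ee.comp (by fun_prop)
      have e3 : Continuous fun y : ℝ × ℝ => ((κ (y.1 / ρ) : ℝ) : ℂ) :=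
        Complex.continuous_ofReal.comp (hc.comp (by fun_prop))
      have e4 : Continuous fun y : ℝ × ℝ => ((κ (y.2 / (ρ / s)) : ℝ) : ℂ) :=
        Complex.continuous_ofReal.comp (hc.comp (by fun_prop))
      exact continuous_const.mul ((e1.mul e3).mul (e2.mul e4))
    exact this.aestronglyMeasurable
  rw [← integral_map (shear_mp α).measurable.aemeasurable hfm, (shear_mp α).map_eq]
  simp only [hf]
  rw [integral_const_mul, Measure.volume_eq_prod, integral_prod_mul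
    (fun t : ℝ => ee (-(t * h.1)) * ((κ (t / ρ) : ℝ) : ℂ))
    (fun x : ℝ => ee (-(x * (h.2 - α * h.1))) * ((κ (x / (ρ / s)) : ℝ) : ℂ)),
    kap_scaled hκ hρ, kap_scaled hκ (div_pos hρ hs)]
  rw [show ρ / s * (h.2 - α * h.1) = ρ * (h.2 - α * h.1) / s by ring]
  have hs' : (s : ℂ) ≠ 0 := by exact_mod_cast hs.ne'
  have hρ' : (ρ : ℂ) ≠ 0 := by exact_mod_cast hρ.ne'
  push_cast
  field_simp

/-- the convolution of the weight with an extension -/
lemma conv_Ext {κ κh : ℝ → ℝ} (hκ : Kap κ κh) {α s ρ : ℝ} (hs : 0 < s) (hρ : 0 < ρ)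
    {D : ℝ × ℝ → ℂ} (hD : Nice D) (z : ℝ × ℝ) :
    ∫ z' : ℝ × ℝ, ((Fe κ α s ρ (z - z') : ℝ) : ℂ) * Ext D z' =
      Ext (fun h => ((κh (ρ * h.1) * κh (ρ * (h.2 - α * h.1) / s) : ℝ) : ℂ) * D h) z := by
  have hF := Fe_integrable (α := α) hκ hs hρ
  have hDi := Nice.integrable hD
  have hF2 : Integrable (fun z' : ℝ × ℝ => ((Fe κ α s ρ (z - z') : ℝ) : ℂ)) :=
    (hF.comp_sub_left z).ofReal
  have hint : Integrable (fun p : (ℝ × ℝ) × (ℝ × ℝ) =>
      ee (p.1.1 * p.2.1 + p.1.2 * p.2.2) * (((Fe κ α s ρ (z - p.1) : ℝ) : ℂ) * D p.2))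
      (volume.prod volume) := by
    refine Integrable.bdd_mul (c := 1) (hF2.mul_prod hDi) ?_ ?_
    · exact (continuous_ee.comp (by fun_prop)).aestronglyMeasurable
    · exact Filter.Eventually.of_forall fun p => (norm_ee _).le
  unfold T9h44.LG.Ext
  calc ∫ z' : ℝ × ℝ, ((Fe κ α s ρ (z - z') : ℝ) : ℂ) *
        ∫ ζ : ℝ × ℝ, ee (z'.1 * ζ.1 + z'.2 * ζ.2) * D ζ
      = ∫ z' : ℝ × ℝ, ∫ ζ : ℝ × ℝ, ee (z'.1 * ζ.1 + z'.2 * ζ.2) *
          (((Fe κ α s ρ (z - z') : ℝ) : ℂ) * D ζ) := by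
        refine integral_congr_ae (Filter.Eventually.of_forall fun z' => ?_)
        change ((Fe κ α s ρ (z - z') : ℝ) : ℂ) *
          ∫ ζ : ℝ × ℝ, ee (z'.1 * ζ.1 + z'.2 * ζ.2) * D ζ = _
        rw [← integral_const_mul]
        refine integral_congr_ae (Filter.Eventually.of_forall fun ζ => ?_)
        change _ * (_ * _) = _ * (_ * _)
        ring
    _ = ∫ ζ : ℝ × ℝ, ∫ z' : ℝ × ℝ, ee (z'.1 * ζ.1 + z'.2 * ζ.2) *
          (((Fe κ α s ρ (z - z') : ℝ) : ℂ) * D ζ) := integral_integral_swap hint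
    _ = _ := by
        refine integral_congr_ae (Filter.Eventually.of_forall fun ζ => ?_)
        change ∫ z' : ℝ × ℝ, ee (z'.1 * ζ.1 + z'.2 * ζ.2) *
          (((Fe κ α s ρ (z - z') : ℝ) : ℂ) * D ζ) = _
        have h1 := integral_sub_left_eq_self (fun y : ℝ × ℝ =>
          ee ((z - y).1 * ζ.1 + (z - y).2 * ζ.2) * (((Fe κ α s ρ y : ℝ) : ℂ) * D ζ))
          (volume : Measure (ℝ × ℝ)) z
        simp only [sub_sub_cancel] at h1
        rw [h1]
        change _ = ee (z.1 * ζ.1 + z.2 * ζ.2) *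
          (((κh (ρ * ζ.1) * κh (ρ * (ζ.2 - α * ζ.1) / s) : ℝ) : ℂ) * D ζ)
        rw [← Fe_fourier hκ hs hρ ζ, ← integral_mul_const, ← integral_const_mul]
        refine integral_congr_ae (Filter.Eventually.of_forall fun y => ?_)
        simp only [Prod.fst_sub, Prod.snd_sub]
        have h2 : (z.1 - y.1) * ζ.1 + (z.2 - y.2) * ζ.2 =
          (z.1 * ζ.1 + z.2 * ζ.2) + -(y.1 * ζ.1 + y.2 * ζ.2) := by ring
        rw [h2, ee_add]
        ring

lemma kaph_bdd {κ κh : ℝ → ℝ} (hκ : Kap κ κh) : ∃ B : ℝ, ∀ x, |κh x| ≤ B := by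
  obtain ⟨-, hc, -, -, -, h0, -⟩ := hκ
  obtain ⟨B, hB⟩ := (isCompact_Icc (a := (-1 : ℝ)) (b := 1)).exists_bound_of_continuousOn
    hc.continuousOn
  refine ⟨max B 0, fun x => ?_⟩
  by_cases hx : |x| < 1
  · exact (hB x ⟨by linarith [(abs_lt.1 hx).1], by linarith [(abs_lt.1 hx).2]⟩).trans
      (le_max_left _ _)
  · rw [h0 x (not_lt.1 hx), abs_zero]
    exact le_max_right _ _

lemma nice_mult {κ κh : ℝ → ℝ} (hκ : Kap κ κh) (α s ρ : ℝ) {D : ℝ × ℝ → ℂ} (hD : Nice D) :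
    Nice (fun h => ((κh (ρ * h.1) * κh (ρ * (h.2 - α * h.1) / s) : ℝ) : ℂ) * D h) := by
  obtain ⟨B, hB⟩ := kaph_bdd hκ
  obtain ⟨hm, ⟨b, hb⟩, r, hr⟩ := hD
  have hc : Continuous κh := hκ.2.1
  refine ⟨?_, ⟨B * B * b, fun h => ?_⟩, r, fun h hh => hr h (right_ne_zero_of_mul hh)⟩
  · refine Measurable.mul ?_ hm
    have e1 : Continuous fun h : ℝ × ℝ => κh (ρ * h.1) := hc.comp (by fun_prop)
    have e2 : Continuous fun h : ℝ × ℝ => κh (ρ * (h.2 - α * h.1) / s) := hc.comp (by fun_prop)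
    exact (Complex.continuous_ofReal.comp (e1.mul e2)).measurable
  · rw [norm_mul, Complex.norm_real, norm_mul, Real.norm_eq_abs, Real.norm_eq_abs]
    have h0 : 0 ≤ B := (abs_nonneg _).trans (hB 0)
    have h1 : |κh (ρ * h.1)| * |κh (ρ * (h.2 - α * h.1) / s)| ≤ B * B :=
      mul_le_mul (hB _) (hB _) (abs_nonneg _) h0
    exact mul_le_mul h1 (hb h) (norm_nonneg _) (mul_nonneg h0 h0)

theorem s_pl1 : S_pl1 := by
  intro κ κh hκ α s ρ hs hρ ι _ A B hA hB
  have hN : Nice (fun h => ∑ i, cc (A i) (B i) h) :=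
    nice_sum fun i => nice_cc (hA i) (hB i)
  simp only [sum_prod_eq hA hB, conv_Ext hκ hs hρ hN]
  exact planch_Ext (nice_mult hκ α s ρ hN)

end Pool.Agent.T9h41.LG
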