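import Pool.Agent.T9h44.LG.Spec5
import Pool.Agent.T9h31.LG.Planch

/-!
# (PO) the Poisson kernel (helper41): `S_po` of `T9h44.LG.Spec5`
-/

set_option autoImplicit false

namespace Pool.Agent.T9h41.LG

open MeasureTheory Real Pool.Agent.T9h44.LG
open Pool.Agent.T9h31.LG (norm_ee ee_add ee_conj continuous_ee measurable_ee)
open Filter Topology Set
open scoped ENNReal ComplexConjugate FourierTransform

/-- the Poisson kernel -/
noncomputable def poi (τ w : ℝ) : ℝ := τ / (π * (τ ^ 2 + w ^ 2))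

lemma poi_nonneg {τ : ℝ} (hτ : 0 < τ) (w : ℝ) : 0 ≤ poi τ w := by unfold poi; positivity

lemma continuous_poi {τ : ℝ} (hτ : 0 < τ) : Continuous (poi τ) := by
  unfold poi
  exact continuous_const.div (by fun_prop) fun w => by positivity

lemma poi_eq {τ : ℝ} (hτ : 0 < τ) (w : ℝ) : poi τ w = (π * τ)⁻¹ * (1 + (w / τ) ^ 2)⁻¹ := by
  unfold poi
  field_simp

lemma integrable_poi {τ : ℝ} (hτ : 0 < τ) : Integrable (poi τ) := by
  have h : poi τ = fun w => (π * τ)⁻¹ * (1 + (w / τ) ^ 2)⁻¹ := funext (poi_eq hτ)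
  rw [h]
  have h3 : Integrable (fun x : ℝ => (1 + x ^ 2)⁻¹) := integrable_inv_one_add_sq
  exact (h3.comp_div hτ.ne').const_mul _

lemma integral_poi {τ : ℝ} (hτ : 0 < τ) : ∫ w, poi τ w = 1 := by
  have h : poi τ = fun w => (π * τ)⁻¹ * (1 + (w / τ) ^ 2)⁻¹ := funext (poi_eq hτ)
  rw [h, integral_const_mul]
  have h3 := Measure.integral_comp_div (fun x : ℝ => (1 + x ^ 2)⁻¹) τ
  rw [h3, integral_univ_inv_one_add_sq, abs_of_pos hτ, smul_eq_mul]
  field_simp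

lemma lint_poi {τ : ℝ} (hτ : 0 < τ) : ∫⁻ w, ENNReal.ofReal (poi τ w) = 1 := by
  rw [← ofReal_integral_eq_lintegral_ofReal (integrable_poi hτ)
    (Eventually.of_forall (poi_nonneg hτ)), integral_poi hτ, ENNReal.ofReal_one]

/-- `exp(-2πτ|σ|)` -/
noncomputable def ex (τ σ : ℝ) : ℂ := ((Real.exp (-(2 * π * τ * |σ|)) : ℝ) : ℂ)

lemma ex_pos {τ σ : ℝ} (hσ : 0 < σ) (w : ℝ) :
    Complex.exp (((-2 * π * σ * w : ℝ) : ℂ) * Complex.I) * ex τ σ =
      Complex.exp ((-(2 * π * (τ : ℂ) + 2 * π * w * Complex.I)) * σ) := by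
  unfold ex
  rw [abs_of_pos hσ, Complex.ofReal_exp, ← Complex.exp_add]
  congr 1
  push_cast
  ring

lemma ex_neg {τ σ : ℝ} (hσ : σ ≤ 0) (w : ℝ) :
    Complex.exp (((-2 * π * σ * w : ℝ) : ℂ) * Complex.I) * ex τ σ =
      Complex.exp ((2 * π * (τ : ℂ) - 2 * π * w * Complex.I) * σ) := by
  unfold ex
  rw [abs_of_nonpos hσ, Complex.ofReal_exp, ← Complex.exp_add]
  congr 1
  push_cast
  ring

lemma ex_fourier {τ : ℝ} (hτ : 0 < τ) (w : ℝ) :
    𝓕 (ex τ) w = ((poi τ w : ℝ) : ℂ) ∧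
      Integrable (fun σ : ℝ => Complex.exp (((-2 * π * σ * w : ℝ) : ℂ) * Complex.I) * ex τ σ) := by
  have hre1 : (-(2 * π * (τ : ℂ) + 2 * π * w * Complex.I)).re < 0 := by
    have : (-(2 * π * (τ : ℂ) + 2 * π * w * Complex.I)).re = -(2 * π * τ) := by simp
    rw [this]
    have : 0 < 2 * π * τ := by positivity
    linarith
  have hre2 : 0 < (2 * π * (τ : ℂ) - 2 * π * w * Complex.I).re := by
    have : (2 * π * (τ : ℂ) - 2 * π * w * Complex.I).re = 2 * π * τ := by simp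
    rw [this]
    positivity
  have i1 : IntegrableOn (fun σ : ℝ => Complex.exp (((-2 * π * σ * w : ℝ) : ℂ) * Complex.I) *
      ex τ σ) (Ioi 0) := by
    refine (integrableOn_exp_mul_complex_Ioi hre1 0).congr_fun ?_ measurableSet_Ioi
    intro σ hσ
    exact (ex_pos hσ w).symm
  have i2 : IntegrableOn (fun σ : ℝ => Complex.exp (((-2 * π * σ * w : ℝ) : ℂ) * Complex.I) *
      ex τ σ) (Iic 0) := by
    refine (integrableOn_exp_mul_complex_Iic hre2 0).congr_fun ?_ measurableSet_Iic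
    intro σ hσ
    exact (ex_neg hσ w).symm
  constructor
  · rw [Real.fourier_real_eq_integral_exp_smul]
    simp only [smul_eq_mul]
    have h0 : ∫ v : ℝ, Complex.exp (((-2 * π * v * w : ℝ) : ℂ) * Complex.I) * ex τ v =
        (∫ v in Iic 0, Complex.exp (((-2 * π * v * w : ℝ) : ℂ) * Complex.I) * ex τ v) +
        ∫ v in Ioi 0, Complex.exp (((-2 * π * v * w : ℝ) : ℂ) * Complex.I) * ex τ v :=
      (intervalIntegral.integral_Iic_add_Ioi i2 i1).symm
    rw [h0, setIntegral_congr_fun measurableSet_Iic fun σ hσ => ex_neg hσ w,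
      setIntegral_congr_fun measurableSet_Ioi fun σ hσ => ex_pos hσ w,
      integral_exp_mul_complex_Iic hre2, integral_exp_mul_complex_Ioi hre1]
    have hne1 : (2 * π * (τ : ℂ) + 2 * π * w * Complex.I) ≠ 0 := by
      intro h
      rw [h] at hre1
      simp at hre1
    have hne2 : (2 * π * (τ : ℂ) - 2 * π * w * Complex.I) ≠ 0 := by
      intro h
      rw [h] at hre2
      simp at hre2
    have hπ : (π : ℂ) ≠ 0 := by exact_mod_cast Real.pi_ne_zero
    have hden : (π : ℂ) * ((τ : ℂ) ^ 2 + (w : ℂ) ^ 2) ≠ 0 := by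
      refine mul_ne_zero hπ ?_
      have : (0 : ℝ) < τ ^ 2 + w ^ 2 := by positivity
      exact_mod_cast this.ne'
    have hprod : (2 * π * (τ : ℂ) - 2 * π * w * Complex.I) *
        (2 * π * (τ : ℂ) + 2 * π * w * Complex.I) = 4 * π * (π * ((τ : ℂ) ^ 2 + (w : ℂ) ^ 2)) := by
      have hI : Complex.I ^ 2 = -1 := Complex.I_sq
      linear_combination (-(4 * (π : ℂ) ^ 2 * (w : ℂ) ^ 2)) * hI
    simp only [Complex.ofReal_zero, mul_zero, Complex.exp_zero]
    rw [neg_div_neg_eq, div_add_div _ _ hne2 hne1, hprod]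
    unfold poi
    push_cast
    rw [div_eq_div_iff (mul_ne_zero (mul_ne_zero (by norm_num) hπ) hden) hden]
    ring
  · rw [← integrableOn_univ, ← Iic_union_Ioi (a := (0 : ℝ))]
    exact i2.union i1

lemma continuous_ex (τ : ℝ) : Continuous (ex τ) := by
  unfold ex
  fun_prop

lemma integrable_ex {τ : ℝ} (hτ : 0 < τ) : Integrable (ex τ) := by
  have h := (ex_fourier hτ 0).2
  simpa using h

/-- the Fourier transform of the Poisson kernel -/
lemma poi_fourier {τ : ℝ} (hτ : 0 < τ) {σ : ℝ} (hσ : 0 < σ) :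
    ∫ w : ℝ, ee (-(w * σ)) * ((poi τ w : ℝ) : ℂ) = ((Real.exp (-(2 * π * τ * σ)) : ℝ) : ℂ) := by
  have hF : 𝓕 (ex τ) = fun w => ((poi τ w : ℝ) : ℂ) := funext fun w => (ex_fourier hτ w).1
  have hI : Integrable (𝓕 (ex τ)) := by
    rw [hF]
    exact (integrable_poi hτ).ofReal
  have h := congrFun ((continuous_ex τ).fourierInv_fourier_eq (integrable_ex hτ) hI) (-σ)
  rw [Real.fourierInv_eq', hF] at h
  have h2 : ex τ (-σ) = ((Real.exp (-(2 * π * τ * σ)) : ℝ) : ℂ) := by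
    unfold ex
    rw [abs_neg, abs_of_pos hσ]
  rw [← h2, ← h]
  refine integral_congr_ae (Eventually.of_forall fun w => ?_)
  simp only [smul_eq_mul]
  congr 1
  unfold T9h44.LG.ee
  congr 2
  simp [mul_comm]

/-! ### convolution in the first variable -/

variable {n : ℕ}

lemma NiceN.integrable {G : ℝ × (Fin n → ℝ) → ℂ} (hG : NiceN G) : Integrable G := by
  obtain ⟨hm, ⟨B, hB⟩, r, hr⟩ := hG
  have hs : Function.support G ⊆
      Set.Icc (-r) r ×ˢ Set.pi Set.univ (fun _ : Fin n => Set.Icc (-r) r) := by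
    intro ζ hζ
    obtain ⟨h1, h2⟩ := hr ζ hζ
    exact ⟨abs_le.1 h1, fun i _ => abs_le.1 (h2 i)⟩
  have hms : MeasurableSet
      (Set.Icc (-r) r ×ˢ Set.pi Set.univ (fun _ : Fin n => Set.Icc (-r) r)) :=
    measurableSet_Icc.prod (MeasurableSet.univ_pi fun _ => measurableSet_Icc)
  have hfin : volume (Set.Icc (-r) r ×ˢ
      Set.pi Set.univ (fun _ : Fin n => Set.Icc (-r) r)) < ⊤ :=
    (isCompact_Icc.prod (isCompact_univ_pi fun _ => isCompact_Icc)).measure_lt_top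
  rw [← Set.indicator_eq_self.2 hs]
  refine IntegrableOn.integrable_indicator ?_ hms
  exact Measure.integrableOn_of_bounded hfin.ne hm.aestronglyMeasurable
    (Eventually.of_forall fun ζ => hB ζ)

lemma niceN_UN {G : ℝ × (Fin n → ℝ) → ℂ} (hG : NiceN G) (c : Fin n → ℝ) : NiceN (UN c G) := by
  obtain ⟨hm, ⟨B, hB⟩, r, hr⟩ := hG
  refine ⟨?_, ⟨B, fun ζ => ?_⟩, r, fun ζ hζ => hr ζ (right_ne_zero_of_mul hζ)⟩
  · unfold T9h44.LG.UN
    exact (measurable_ee.comp (by fun_prop)).mul hm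
  · unfold T9h44.LG.UN
    rw [norm_mul, norm_ee, one_mul]
    exact hB ζ

lemma continuous_ExtN {H : ℝ × (Fin n → ℝ) → ℂ} (h1 : Integrable H) : Continuous (ExtN H) := by
  refine continuous_of_dominated (bound := fun ζ => ‖H ζ‖) (fun y => ?_)
    (fun y => Eventually.of_forall fun z => ?_) h1.norm (Eventually.of_forall fun z => ?_)
  · refine AEStronglyMeasurable.mul ?_ h1.aestronglyMeasurable
    exact (continuous_ee.comp (by fun_prop)).aestronglyMeasurable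
  · rw [norm_mul, norm_ee, one_mul]
  · exact (continuous_ee.comp (by fun_prop)).mul continuous_const

lemma conv_poi {τ : ℝ} (hτ : 0 < τ) {H : ℝ × (Fin n → ℝ) → ℂ} (hH : Integrable H)
    (hpos : ∀ ζ, H ζ ≠ 0 → 0 < ζ.1) (p : ℝ × (Fin n → ℝ)) :
    ExtN (fun ζ => ((Real.exp (-(2 * π * τ * ζ.1)) : ℝ) : ℂ) * H ζ) p =
      ∫ w : ℝ, ((poi τ w : ℝ) : ℂ) * ExtN H (p.1 - w, p.2) := by
  have hint : Integrable (fun q : ℝ × (ℝ × (Fin n → ℝ)) =>
      ee ((p.1 - q.1) * q.2.1 + ∑ i, p.2 i * q.2.2 i) * (((poi τ q.1 : ℝ) : ℂ) * H q.2))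
      (volume.prod volume) := by
    refine Integrable.bdd_mul (c := 1) ((integrable_poi hτ).ofReal.mul_prod hH) ?_ ?_
    · exact (continuous_ee.comp (by fun_prop)).aestronglyMeasurable
    · exact Eventually.of_forall fun p => (norm_ee _).le
  symm
  unfold T9h44.LG.ExtN
  calc ∫ w : ℝ, ((poi τ w : ℝ) : ℂ) * ∫ ζ : ℝ × (Fin n → ℝ),
        ee ((p.1 - w) * ζ.1 + ∑ i, p.2 i * ζ.2 i) * H ζ
      = ∫ w : ℝ, ∫ ζ : ℝ × (Fin n → ℝ),
        ee ((p.1 - w) * ζ.1 + ∑ i, p.2 i * ζ.2 i) * (((poi τ w : ℝ) : ℂ) * H ζ) := by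
        refine integral_congr_ae (Eventually.of_forall fun w => ?_)
        beta_reduce
        rw [← integral_const_mul]
        refine integral_congr_ae (Eventually.of_forall fun ζ => ?_)
        beta_reduce
        ring
    _ = ∫ ζ : ℝ × (Fin n → ℝ), ∫ w : ℝ,
        ee ((p.1 - w) * ζ.1 + ∑ i, p.2 i * ζ.2 i) * (((poi τ w : ℝ) : ℂ) * H ζ) :=
        integral_integral_swap hint
    _ = _ := by
        refine integral_congr_ae (Eventually.of_forall fun ζ => ?_)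
        beta_reduce
        by_cases h0 : H ζ = 0
        · simp [h0]
        rw [← poi_fourier hτ (hpos ζ h0), ← integral_mul_const, ← integral_const_mul]
        refine integral_congr_ae (Eventually.of_forall fun w => ?_)
        beta_reduce
        have h2 : (p.1 - w) * ζ.1 + ∑ i, p.2 i * ζ.2 i =
          (p.1 * ζ.1 + ∑ i, p.2 i * ζ.2 i) + -(w * ζ.1) := by ring
        rw [h2, ee_add]
        ring

/-- Cauchy-Schwarz -/
lemma cs1 {K u : ℝ → ℝ≥0∞} (hK : Measurable K) (hu : Measurable u) :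
    (∫⁻ z, K z * u z) ^ 2 ≤ (∫⁻ z, K z) * ∫⁻ z, K z * u z ^ 2 := by
  have h := ENNReal.lintegral_mul_le_Lp_mul_Lq (μ := (volume : Measure ℝ))
    (Real.HolderConjugate.two_two)
    (f := fun z => K z ^ (1 / 2 : ℝ)) (g := fun z => K z ^ (1 / 2 : ℝ) * u z)
    (hK.pow_const _).aemeasurable ((hK.pow_const _).mul hu).aemeasurable
  have e1 : ∀ z, (K z ^ (1 / 2 : ℝ)) * (K z ^ (1 / 2 : ℝ) * u z) = K z * u z := by
    intro z
    rw [← mul_assoc, ← ENNReal.rpow_add_of_nonneg _ _ (by norm_num) (by norm_num)]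
    norm_num
  have e2 : ∀ z, (K z ^ (1 / 2 : ℝ)) ^ (2 : ℝ) = K z := by
    intro z
    rw [← ENNReal.rpow_mul]
    norm_num
  have e3 : ∀ z, (K z ^ (1 / 2 : ℝ) * u z) ^ (2 : ℝ) = K z * u z ^ 2 := by
    intro z
    rw [ENNReal.mul_rpow_of_nonneg _ _ (by norm_num), e2]
    norm_num
  simp only [Pi.mul_apply, e1, e2, e3] at h
  calc (∫⁻ z, K z * u z) ^ 2 ≤
      ((∫⁻ z, K z) ^ (1 / 2 : ℝ) * (∫⁻ z, K z * u z ^ 2) ^ (1 / 2 : ℝ)) ^ 2 := by gcongr
    _ = _ := by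
      rw [mul_pow, ← ENNReal.rpow_natCast, ← ENNReal.rpow_natCast, ← ENNReal.rpow_mul,
        ← ENNReal.rpow_mul]
      norm_num

lemma jensen4 {K u : ℝ → ℝ≥0∞} (hK : Measurable K) (hu : Measurable u) (h1 : ∫⁻ z, K z = 1) :
    (∫⁻ z, K z * u z) ^ 4 ≤ ∫⁻ z, K z * u z ^ 4 := by
  have a := cs1 hK hu
  have b := cs1 hK (hu.pow_const 2)
  rw [h1, one_mul] at a b
  calc (∫⁻ z, K z * u z) ^ 4 = ((∫⁻ z, K z * u z) ^ 2) ^ 2 := by rw [← pow_mul]
    _ ≤ (∫⁻ z, K z * u z ^ 2) ^ 2 := by gcongr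
    _ ≤ ∫⁻ z, K z * (u z ^ 2) ^ 2 := b
    _ = _ := by
      refine lintegral_congr fun z => ?_
      rw [← pow_mul]

theorem s_po (n : ℕ) : S_po n := by
  intro c τ hτ G hG hpos
  rcases hτ.eq_or_lt with h0 | h0
  · rw [← h0]
    simp
  set H := UN c G with hH
  have hHn : NiceN H := niceN_UN hG c
  have hHi := NiceN.integrable hHn
  have hHpos : ∀ ζ, H ζ ≠ 0 → 0 < ζ.1 := fun ζ hζ => hpos ζ (right_ne_zero_of_mul hζ)
  have e1 : (UN c fun ζ => ((Real.exp (-(2 * π * τ * ζ.1)) : ℝ) : ℂ) * G ζ) =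
      fun ζ => ((Real.exp (-(2 * π * τ * ζ.1)) : ℝ) : ℂ) * H ζ := by
    funext ζ
    rw [hH]
    unfold T9h44.LG.UN
    ring
  rw [e1]
  have hm : Measurable fun w : ℝ => ENNReal.ofReal (poi τ w) :=
    (continuous_poi h0).measurable.ennreal_ofReal
  have hc := continuous_ExtN hHi
  have h1 : ∀ p : ℝ × (Fin n → ℝ),
      ‖ExtN (fun ζ => ((Real.exp (-(2 * π * τ * ζ.1)) : ℝ) : ℂ) * H ζ) p‖ₑ ^ 4 ≤
        ∫⁻ w : ℝ, ENNReal.ofReal (poi τ w) * ‖ExtN H (p.1 - w, p.2)‖ₑ ^ 4 := by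
    intro p
    rw [conv_poi h0 hHi hHpos]
    have hmu : Measurable fun w : ℝ => ‖ExtN H (p.1 - w, p.2)‖ₑ :=
      (hc.comp (by fun_prop : Continuous fun w : ℝ => (p.1 - w, p.2))).measurable.enorm
    refine (pow_le_pow_left' (enorm_integral_le_lintegral_enorm _) 4).trans ?_
    have e2 : ∀ w : ℝ, ‖((poi τ w : ℝ) : ℂ) * ExtN H (p.1 - w, p.2)‖ₑ =
        ENNReal.ofReal (poi τ w) * ‖ExtN H (p.1 - w, p.2)‖ₑ := by
      intro w
      rw [enorm_mul]
      congr 1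
      rw [← ofReal_norm, Complex.norm_real, Real.norm_of_nonneg (poi_nonneg h0 w)]
    simp only [e2]
    exact jensen4 hm hmu (lint_poi h0)
  refine (lintegral_mono h1).trans (le_of_eq ?_)
  have hmeas : Measurable fun q : (ℝ × (Fin n → ℝ)) × ℝ =>
      ENNReal.ofReal (poi τ q.2) * ‖ExtN H (q.1.1 - q.2, q.1.2)‖ₑ ^ 4 := by
    have h2 : Measurable fun q : (ℝ × (Fin n → ℝ)) × ℝ => ExtN H (q.1.1 - q.2, q.1.2) :=
      (hc.comp (by fun_prop :
        Continuous fun q : (ℝ × (Fin n → ℝ)) × ℝ => (q.1.1 - q.2, q.1.2))).measurable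
    exact (hm.comp measurable_snd).mul (h2.enorm.pow_const 4)
  rw [lintegral_lintegral_swap hmeas.aemeasurable]
  have h3 : ∀ w : ℝ, ∫⁻ p : ℝ × (Fin n → ℝ),
      ENNReal.ofReal (poi τ w) * ‖ExtN H (p.1 - w, p.2)‖ₑ ^ 4 =
      ENNReal.ofReal (poi τ w) * ∫⁻ p : ℝ × (Fin n → ℝ), ‖ExtN H p‖ₑ ^ 4 := by
    intro w
    rw [lintegral_const_mul']
    · congr 1
      have : (volume : Measure (ℝ × (Fin n → ℝ))).IsAddLeftInvariant := by
        rw [Measure.volume_eq_prod]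
        infer_instance
      rw [← lintegral_add_left_eq_self (fun p : ℝ × (Fin n → ℝ) => ‖ExtN H p‖ₑ ^ 4) (-w, 0)]
      refine lintegral_congr fun p => ?_
      have hp : (p.1 - w, p.2) = (-w, (0 : Fin n → ℝ)) + p := by
        ext <;> simp [sub_eq_neg_add]
      rw [hp]
    · exact ENNReal.ofReal_ne_top
  simp only [h3]
  rw [lintegral_mul_const _ hm, lint_poi h0, one_mul]

end Pool.Agent.T9h41.LG
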