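import Pool.Agent.T9h41.LG.KMb
import Pool.Agent.T9h31.LG.Planch
import Pool.Agent.T9h44.LS4.AS5

/-!
# The `L²` estimate of a shell (helper41): `S_r2` of `T9h44.LG.Spec2`
-/

set_option autoImplicit false

namespace Pool.Agent.T9h41.LG

open MeasureTheory Real Pool.Agent.T9h44.LS4 Pool.Agent.T9h44.LG
open Pool.Agent.T9h31.LG (norm_ee ee_add ee_conj continuous_ee measurable_ee)
open Filter Topology Set
open scoped ENNReal ComplexConjugate

variable {n : ℕ}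

/-! ### Plancherel in dimension `n` -/

lemma memLp2' {V : Type*} [MeasurableSpace V] {μ : Measure V} {f : V → ℂ} (hf : Integrable f μ)
    {B : ℝ} (hB : ∀ u, ‖f u‖ ≤ B) : MemLp f 2 μ := by
  refine (memLp_two_iff_integrable_sq_norm hf.aestronglyMeasurable).2 ?_
  refine (hf.norm.const_mul B).mono' (by fun_prop (disch := exact hf.aestronglyMeasurable)) ?_
  refine Eventually.of_forall fun u => ?_
  rw [Real.norm_of_nonneg (by positivity), pow_two]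
  exact mul_le_mul_of_nonneg_right (hB u) (norm_nonneg _)

lemma planchV {H : (Fin n → ℝ) → ℂ} (h1 : Integrable H) {B : ℝ} (hB : ∀ u, ‖H u‖ ≤ B) :
    ∫⁻ x : Fin n → ℝ, ‖ExV H x‖ₑ ^ 2 = ∫⁻ ξ : Fin n → ℝ, ‖H ξ‖ₑ ^ 2 :=
  Pool.Agent.TH280.LS.ftm_planch H h1 (memLp2' h1 hB)

/-- the Fourier transform -/
noncomputable def Fh (F : (Fin n → ℝ) → ℂ) (ξ : Fin n → ℝ) : ℂ :=
  ∫ v : Fin n → ℝ, ee (-∑ i, v i * ξ i) * F v

lemma planchV' {F : (Fin n → ℝ) → ℂ} (h1 : Integrable F) {B : ℝ} (hB : ∀ u, ‖F u‖ ≤ B) :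
    ∫⁻ ξ : Fin n → ℝ, ‖Fh F ξ‖ₑ ^ 2 = ∫⁻ x : Fin n → ℝ, ‖F x‖ₑ ^ 2 := by
  rw [← planchV h1 hB]
  rw [← (Measure.measurePreserving_neg (volume : Measure (Fin n → ℝ))).lintegral_comp_emb
    (MeasurableEquiv.neg (Fin n → ℝ)).measurableEmbedding (fun ξ => ‖ExV F ξ‖ₑ ^ 2)]
  refine lintegral_congr fun ξ => ?_
  congr 2
  unfold Fh T9h44.LG.ExV
  refine integral_congr_ae (Eventually.of_forall fun v => ?_)
  beta_reduce
  congr 2
  rw [← Finset.sum_neg_distrib]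
  refine Finset.sum_congr rfl fun i _ => ?_
  simp only [Pi.neg_apply]
  ring

lemma continuous_Fh {F : (Fin n → ℝ) → ℂ} (h1 : Integrable F) : Continuous (Fh F) := by
  refine continuous_of_dominated (bound := fun ζ => ‖F ζ‖) (fun y => ?_)
    (fun y => Eventually.of_forall fun z => ?_) h1.norm (Eventually.of_forall fun z => ?_)
  · refine AEStronglyMeasurable.mul ?_ h1.aestronglyMeasurable
    exact (continuous_ee.comp (by fun_prop)).aestronglyMeasurable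
  · rw [norm_mul, norm_ee, one_mul]
  · exact (continuous_ee.comp (by fun_prop)).mul continuous_const

lemma norm_Fh_le (F : (Fin n → ℝ) → ℂ) (ξ : Fin n → ℝ) : ‖Fh F ξ‖ ≤ ∫ v, ‖F v‖ := by
  unfold Fh
  refine (norm_integral_le_integral_norm _).trans (le_of_eq ?_)
  refine integral_congr_ae (Eventually.of_forall fun x => ?_)
  simp only [norm_mul, norm_ee, one_mul]

lemma NiceV.integrable {G : (Fin n → ℝ) → ℂ} (hG : NiceV G) : Integrable G := by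
  obtain ⟨hm, ⟨B, hB⟩, r, hr⟩ := hG
  have hs : Function.support G ⊆ Set.pi Set.univ (fun _ : Fin n => Set.Icc (-r) r) := by
    intro ζ hζ i _
    exact abs_le.1 (hr ζ hζ i)
  have hms : MeasurableSet (Set.pi Set.univ (fun _ : Fin n => Set.Icc (-r) r)) :=
    MeasurableSet.univ_pi fun _ => measurableSet_Icc
  have hfin : volume (Set.pi Set.univ (fun _ : Fin n => Set.Icc (-r) r)) < ⊤ :=
    (isCompact_univ_pi fun _ => isCompact_Icc).measure_lt_top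
  rw [← Set.indicator_eq_self.2 hs]
  refine IntegrableOn.integrable_indicator ?_ hms
  exact Measure.integrableOn_of_bounded hfin.ne hm.aestronglyMeasurable
    (Eventually.of_forall fun ζ => hB ζ)

/-! ### the cutoff of the shell -/

lemma continuous_shl : Continuous (shl : (Fin n → ℝ) → ℝ) := by
  unfold T9h44.LG.shl
  have h := Real.smoothTransition.continuous
  exact (h.comp (by fun_prop)).mul (h.comp (by fun_prop))

lemma shl_nonneg (ξ : Fin n → ℝ) : 0 ≤ shl ξ :=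
  mul_nonneg (Real.smoothTransition.nonneg _) (Real.smoothTransition.nonneg _)

lemma shl_le_one (ξ : Fin n → ℝ) : shl ξ ≤ 1 :=
  mul_le_one₀ (Real.smoothTransition.le_one _) (Real.smoothTransition.nonneg _)
    (Real.smoothTransition.le_one _)

lemma of_shl {ξ : Fin n → ℝ} (h : shl ξ ≠ 0) : 1 / 16 < ∑ i, ξ i ^ 2 ∧ ∑ i, ξ i ^ 2 < 16 := by
  unfold T9h44.LG.shl at h
  constructor
  · by_contra hc
    exact h (by rw [Real.smoothTransition.zero_of_nonpos (by nlinarith), zero_mul])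
  · by_contra hc
    exact h (by rw [Real.smoothTransition.zero_of_nonpos (x := (16 - ∑ i, ξ i ^ 2) / 12)
      (by nlinarith), mul_zero])

lemma sum_scaled {R : ℝ} (hR : 0 < R) (ξ : Fin n → ℝ) :
    ∑ i, ξ i ^ 2 = R ^ 2 * ∑ i, (R⁻¹ • ξ) i ^ 2 := by
  rw [Finset.mul_sum]
  refine Finset.sum_congr rfl fun i _ => ?_
  simp only [Pi.smul_apply, smul_eq_mul]
  field_simp

/-- the projected function on the Fourier side -/
noncomputable def GS (R : ℝ) (F : (Fin n → ℝ) → ℂ) (ξ : Fin n → ℝ) : ℂ :=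
  ((shl (R⁻¹ • ξ) : ℝ) : ℂ) * Fh F ξ

lemma Psi_eq (R : ℝ) (F : (Fin n → ℝ) → ℂ) : Psi R F = ExV (GS R F) := rfl

lemma GS_supp {R : ℝ} (hR : 0 < R) {F : (Fin n → ℝ) → ℂ} {ξ : Fin n → ℝ} (h : GS R F ξ ≠ 0) :
    R ^ 2 / 16 < ∑ i, ξ i ^ 2 ∧ ∑ i, ξ i ^ 2 < 16 * R ^ 2 := by
  have h1 : shl (R⁻¹ • ξ) ≠ 0 := fun h0 => left_ne_zero_of_mul h (by rw [h0]; simp)
  obtain ⟨h2, h3⟩ := of_shl h1
  rw [sum_scaled hR ξ]
  constructor <;> nlinarith [sq_pos_of_pos hR]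

lemma norm_GS_le (R : ℝ) (F : (Fin n → ℝ) → ℂ) (ξ : Fin n → ℝ) : ‖GS R F ξ‖ ≤ ‖Fh F ξ‖ := by
  unfold GS
  rw [norm_mul, Complex.norm_real, Real.norm_of_nonneg (shl_nonneg _)]
  exact mul_le_of_le_one_left (norm_nonneg _) (shl_le_one _)

lemma niceV_GS {R : ℝ} (hR : 0 < R) {F : (Fin n → ℝ) → ℂ} (h1 : Integrable F) :
    NiceV (GS R F) := by
  refine ⟨?_, ⟨∫ v, ‖F v‖, fun ξ => (norm_GS_le R F ξ).trans (norm_Fh_le F ξ)⟩, 4 * R,
    fun ξ hξ i => ?_⟩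
  · unfold GS
    have h2 : Continuous fun ξ : Fin n → ℝ => ((shl (R⁻¹ • ξ) : ℝ) : ℂ) :=
      Complex.continuous_ofReal.comp (continuous_shl.comp (by fun_prop))
    exact (h2.mul (continuous_Fh h1)).measurable
  · have h2 := (GS_supp hR hξ).2
    have h3 : ξ i ^ 2 ≤ ∑ i, ξ i ^ 2 :=
      Finset.single_le_sum (f := fun i => ξ i ^ 2) (fun i _ => sq_nonneg _) (Finset.mem_univ i)
    refine abs_le_of_sq_le_sq ?_ (by positivity)
    nlinarith

/-! ### convolution with an integrable kernel -/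

lemma conv_ExV {K : (Fin n → ℝ) → ℂ} (hK : Integrable K) {G : (Fin n → ℝ) → ℂ}
    (hG : Integrable G) (x : Fin n → ℝ) :
    ∫ u : Fin n → ℝ, K (x - u) * ExV G u = ExV (fun ξ => Fh K ξ * G ξ) x := by
  have hF2 : Integrable (fun u : Fin n → ℝ => K (x - u)) := hK.comp_sub_left x
  have hint : Integrable (fun p : (Fin n → ℝ) × (Fin n → ℝ) =>
      ee (∑ i, p.1 i * p.2 i) * (K (x - p.1) * G p.2)) (volume.prod volume) := by
    refine Integrable.bdd_mul (c := 1) (hF2.mul_prod hG) ?_ ?_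
    · exact (continuous_ee.comp (by fun_prop)).aestronglyMeasurable
    · exact Eventually.of_forall fun p => (norm_ee _).le
  unfold T9h44.LG.ExV
  calc ∫ u : Fin n → ℝ, K (x - u) * ∫ ξ : Fin n → ℝ, ee (∑ i, u i * ξ i) * G ξ
      = ∫ u : Fin n → ℝ, ∫ ξ : Fin n → ℝ, ee (∑ i, u i * ξ i) * (K (x - u) * G ξ) := by
        refine integral_congr_ae (Eventually.of_forall fun u => ?_)
        change K (x - u) * ∫ ξ : Fin n → ℝ, ee (∑ i, u i * ξ i) * G ξ = _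
        rw [← integral_const_mul]
        refine integral_congr_ae (Eventually.of_forall fun ξ => ?_)
        change _ * (_ * _) = _ * (_ * _)
        ring
    _ = ∫ ξ : Fin n → ℝ, ∫ u : Fin n → ℝ, ee (∑ i, u i * ξ i) * (K (x - u) * G ξ) :=
        integral_integral_swap hint
    _ = _ := by
        refine integral_congr_ae (Eventually.of_forall fun ξ => ?_)
        change ∫ u : Fin n → ℝ, ee (∑ i, u i * ξ i) * (K (x - u) * G ξ) =
          ee (∑ i, x i * ξ i) * ((∫ v : Fin n → ℝ, ee (-∑ i, v i * ξ i) * K v) * G ξ)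
        have h1 := integral_sub_left_eq_self (fun y : Fin n → ℝ =>
          ee (∑ i, (x - y) i * ξ i) * (K y * G ξ)) (volume : Measure (Fin n → ℝ)) x
        simp only [sub_sub_cancel] at h1
        rw [h1, ← integral_mul_const, ← integral_const_mul]
        refine integral_congr_ae (Eventually.of_forall fun y => ?_)
        change ee (∑ i, (x - y) i * ξ i) * (K y * G ξ) = _ * (_ * _ * _)
        have h2 : ∑ i, (x - y) i * ξ i = (∑ i, x i * ξ i) + -∑ i, y i * ξ i := by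
          rw [← Finset.sum_neg_distrib, ← Finset.sum_add_distrib]
          refine Finset.sum_congr rfl fun i _ => ?_
          simp only [Pi.sub_apply]
          ring
        rw [h2, ee_add]
        ring

/-! ### the symbol on the shell -/

lemma symbol_le (M : ℕ) : ∃ C : ℝ, 0 < C ∧ ∀ R : ℝ, 1 ≤ R → ∀ g ∈ box n, ∀ y t : ℝ, 0 < y →
    1 ≤ t → ∀ ξ : Fin n → ℝ, R ^ 2 / 16 < ∑ i, ξ i ^ 2 → ∑ i, ξ i ^ 2 < 16 * R ^ 2 →
    ‖(((∏ i, g i) ^ (-(1 / 2) : ℝ) : ℝ) : ℂ) *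
        Complex.exp (-(Complex.I * (π * ((n : ℝ) - 1) / 4 : ℝ))) *
        (tau y t)⁻¹ ^ (M + 1) * ((Nm g ξ : ℝ) : ℂ) ^ M *
        Complex.exp (2 * π * Complex.I * (Nm g ξ : ℝ) * tau y t) *
        (Pb M).eval (1 / (2 * π * Complex.I * (Nm g ξ : ℝ) * tau y t))‖ ≤ C * R ^ M := by
  obtain ⟨B, hB⟩ := (isCompact_closedBall (0 : ℂ) 1).exists_bound_of_continuousOn
    (f := fun z => (Pb M).eval z) (Pb M).continuous.continuousOn
  have hB0 : 0 ≤ B := (norm_nonneg _).trans (hB 0 (by simp))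
  refine ⟨4 ^ M * (B + 1), by positivity, ?_⟩
  intro R hR g hg y t hy ht ξ h1 h2
  have hR0 : 0 < R := by linarith
  have ht0 : 0 < t := by linarith
  have hg1 : ∀ i, 1 ≤ g i := fun i => (hg i).1
  have hg2 : ∀ i, g i ≤ 2 := fun i => (hg i).2
  have hP : 1 ≤ ∏ i, g i := by
    calc (1 : ℝ) = ∏ _i : Fin n, (1 : ℝ) := by simp
      _ ≤ ∏ i, g i := Finset.prod_le_prod (fun _ _ => zero_le_one) fun i _ => hg1 i
  have a1 : ‖(((∏ i, g i) ^ (-(1 / 2) : ℝ) : ℝ) : ℂ)‖ ≤ 1 := by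
    rw [Complex.norm_real, Real.norm_of_nonneg (by positivity)]
    exact Real.rpow_le_one_of_one_le_of_nonpos hP (by norm_num)
  have a2 : ‖Complex.exp (-(Complex.I * (π * ((n : ℝ) - 1) / 4 : ℝ)))‖ = 1 := by
    rw [Complex.norm_exp, Complex.neg_re, mul_comm, Complex.re_ofReal_mul, Complex.I_re, mul_zero,
      neg_zero, Real.exp_zero]
  have a3 : 1 ≤ ‖tau y t‖ := by
    have h1 := Complex.abs_re_le_norm (tau y t)
    have h2 : (tau y t).re = t := by unfold tau; simp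
    rw [h2, abs_of_pos ht0] at h1
    linarith
  have hN0 : 0 ≤ Nm g ξ := Real.sqrt_nonneg _
  have a4 : ‖Complex.exp (2 * π * Complex.I * (Nm g ξ : ℝ) * tau y t)‖ ≤ 1 := by
    rw [Complex.norm_exp, Real.exp_le_one_iff]
    have e : (2 * π * Complex.I * (Nm g ξ : ℝ) * tau y t).re =
        -(2 * π * Nm g ξ * (y / t)) := by
      unfold tau
      simp
    rw [e]
    have : 0 ≤ 2 * π * Nm g ξ * (y / t) := by positivity
    linarith
  have hS1 : ∑ i, ξ i ^ 2 / g i ≤ ∑ i, ξ i ^ 2 := by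
    refine Finset.sum_le_sum fun i _ => ?_
    exact div_le_self (sq_nonneg _) (hg1 i)
  have hS2 : (∑ i, ξ i ^ 2) / 2 ≤ ∑ i, ξ i ^ 2 / g i := by
    rw [Finset.sum_div]
    refine Finset.sum_le_sum fun i _ => ?_
    have := hg1 i
    exact div_le_div_of_nonneg_left (sq_nonneg _) (by linarith) (hg2 i)
  have a5 : Nm g ξ ≤ 4 * R := by
    unfold Nm
    rw [Real.sqrt_le_left (by positivity)]
    nlinarith
  have a6 : R / 6 ≤ Nm g ξ := by
    unfold Nm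
    refine Real.le_sqrt_of_sq_le ?_
    nlinarith [sq_pos_of_pos hR0]
  have a7 : ‖(Pb M).eval (1 / (2 * π * Complex.I * (Nm g ξ : ℝ) * tau y t))‖ ≤ B := by
    refine hB _ ?_
    rw [mem_closedBall_zero_iff, norm_div, norm_one, norm_mul, norm_mul, norm_mul, norm_mul,
      Complex.norm_I, mul_one, Complex.norm_real, Complex.norm_real, Complex.norm_ofNat,
      Real.norm_of_nonneg Real.pi_pos.le, Real.norm_of_nonneg hN0]
    have h3 : (1 : ℝ) ≤ 2 * π * Nm g ξ := by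
      nlinarith [Real.pi_gt_three]
    have h4 : (1 : ℝ) ≤ 2 * π * Nm g ξ * ‖tau y t‖ := by nlinarith
    rw [div_le_one (by linarith)]
    exact h4
  have a8 : ‖(tau y t)⁻¹ ^ (M + 1)‖ ≤ 1 := by
    rw [norm_pow, norm_inv]
    exact pow_le_one₀ (by positivity) (inv_le_one_of_one_le₀ a3)
  have a9 : ‖((Nm g ξ : ℝ) : ℂ) ^ M‖ ≤ 4 ^ M * R ^ M := by
    rw [norm_pow, Complex.norm_real, Real.norm_of_nonneg hN0, ← mul_pow]
    exact pow_le_pow_left₀ hN0 a5 M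
  rw [norm_mul, norm_mul, norm_mul, norm_mul, norm_mul, a2, mul_one]
  have b1 : ‖(((∏ i, g i) ^ (-(1 / 2) : ℝ) : ℝ) : ℂ)‖ * ‖(tau y t)⁻¹ ^ (M + 1)‖ ≤ 1 :=
    mul_le_one₀ a1 (norm_nonneg _) a8
  have b2 : ‖(((∏ i, g i) ^ (-(1 / 2) : ℝ) : ℝ) : ℂ)‖ * ‖(tau y t)⁻¹ ^ (M + 1)‖ *
      ‖((Nm g ξ : ℝ) : ℂ) ^ M‖ ≤ 1 * (4 ^ M * R ^ M) :=
    mul_le_mul b1 a9 (norm_nonneg _) zero_le_one
  have b3 : ‖(((∏ i, g i) ^ (-(1 / 2) : ℝ) : ℝ) : ℂ)‖ * ‖(tau y t)⁻¹ ^ (M + 1)‖ *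
      ‖((Nm g ξ : ℝ) : ℂ) ^ M‖ * ‖Complex.exp (2 * π * Complex.I * (Nm g ξ : ℝ) * tau y t)‖ ≤
      1 * (4 ^ M * R ^ M) * 1 :=
    mul_le_mul b2 a4 (norm_nonneg _) (by positivity)
  refine (mul_le_mul b3 a7 (norm_nonneg _) (by positivity)).trans ?_
  have : (0 : ℝ) ≤ 4 ^ M * R ^ M := by positivity
  nlinarith

theorem l2_shell (hKH : S_kh n) (hn : 1 ≤ n) (M : ℕ) : ∃ C : ℝ, 0 < C ∧ ∀ R : ℝ, 1 ≤ R →
    ∀ F : (Fin n → ℝ) → ℂ, Integrable F → (∃ B : ℝ, ∀ u, ‖F u‖ ≤ B) → ∀ g ∈ box n, ∀ t : ℝ,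
    1 ≤ t →
    ∫⁻ x : Fin n → ℝ,
        ‖∫ u : Fin n → ℝ, KM M n R⁻¹ (t ^ 2 - R⁻¹ ^ 2 / t ^ 2) g (x - u) * Psi R F u‖ₑ ^ 2 ≤
      ENNReal.ofReal (C * R ^ (2 * M)) * ∫⁻ u : Fin n → ℝ, ‖F u‖ₑ ^ 2 := by
  obtain ⟨C, hC, hsym⟩ := symbol_le (n := n) M
  refine ⟨C ^ 2, by positivity, ?_⟩
  intro R hR F hF hFb g hg t ht
  obtain ⟨B, hB⟩ := hFb
  have hR0 : 0 < R := by linarith
  have hg0 : ∀ i, 0 < g i := fun i => by have := (hg i).1; linarith
  have hy : 0 < R⁻¹ := by positivity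
  set K : (Fin n → ℝ) → ℂ := KM M n R⁻¹ (t ^ 2 - R⁻¹ ^ 2 / t ^ 2) g with hKdef
  have hK : Integrable K := integrable_KM hn M hy _ hg0
  have hG := niceV_GS hR0 hF
  have hGi := NiceV.integrable hG
  have hbd : ∀ ξ, ‖Fh K ξ * GS R F ξ‖ ≤ C * R ^ M * ‖GS R F ξ‖ := by
    intro ξ
    rw [norm_mul]
    by_cases h0 : GS R F ξ = 0
    · rw [h0]; simp
    · obtain ⟨h1, h2⟩ := GS_supp hR0 h0
      refine mul_le_mul_of_nonneg_right ?_ (norm_nonneg _)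
      have hξ : ξ ≠ 0 := by
        rintro rfl
        simp only [Pi.zero_apply] at h1
        have : (0 : ℝ) < R ^ 2 / 16 := by positivity
        simp at h1
        linarith
      have h3 := hKH hn M g hg R⁻¹ t hy (by linarith) ξ hξ
      unfold Fh
      rw [hKdef, h3]
      exact hsym R hR g hg R⁻¹ t hy ht ξ h1 h2
  have hm : Measurable fun ξ => Fh K ξ * GS R F ξ := (continuous_Fh hK).measurable.mul hG.1
  have hHi : Integrable fun ξ => Fh K ξ * GS R F ξ :=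
    (hGi.norm.const_mul (C * R ^ M)).mono' hm.aestronglyMeasurable (Eventually.of_forall hbd)
  obtain ⟨b, hb⟩ := hG.2.1
  have hHb : ∀ ξ, ‖Fh K ξ * GS R F ξ‖ ≤ C * R ^ M * b := fun ξ =>
    (hbd ξ).trans (mul_le_mul_of_nonneg_left (hb ξ) (by positivity))
  calc ∫⁻ x : Fin n → ℝ, ‖∫ u : Fin n → ℝ, K (x - u) * Psi R F u‖ₑ ^ 2
      = ∫⁻ x : Fin n → ℝ, ‖ExV (fun ξ => Fh K ξ * GS R F ξ) x‖ₑ ^ 2 := by
        refine lintegral_congr fun x => ?_
        rw [Psi_eq, conv_ExV hK hGi]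
    _ = ∫⁻ ξ : Fin n → ℝ, ‖Fh K ξ * GS R F ξ‖ₑ ^ 2 := planchV hHi hHb
    _ ≤ ∫⁻ ξ : Fin n → ℝ, ENNReal.ofReal (C ^ 2 * R ^ (2 * M)) * ‖Fh F ξ‖ₑ ^ 2 := by
        refine lintegral_mono fun ξ => ?_
        have h1 : ‖Fh K ξ * GS R F ξ‖ ≤ C * R ^ M * ‖Fh F ξ‖ :=
          (hbd ξ).trans (mul_le_mul_of_nonneg_left (norm_GS_le R F ξ) (by positivity))
        have h2 : ‖Fh K ξ * GS R F ξ‖ₑ ≤ ENNReal.ofReal (C * R ^ M) * ‖Fh F ξ‖ₑ := by
          rw [← ofReal_norm, ← ofReal_norm, ← ENNReal.ofReal_mul (by positivity)]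
          exact ENNReal.ofReal_le_ofReal h1
        refine (pow_le_pow_left' h2 2).trans (le_of_eq ?_)
        rw [mul_pow, ← ENNReal.ofReal_pow (by positivity)]
        congr 2
        ring
    _ = ENNReal.ofReal (C ^ 2 * R ^ (2 * M)) * ∫⁻ ξ : Fin n → ℝ, ‖Fh F ξ‖ₑ ^ 2 :=
        lintegral_const_mul' _ _ ENNReal.ofReal_ne_top
    _ = _ := by rw [planchV' hF hB]

theorem s_r2 (n : ℕ) : S_kh n → S_r2 n := by
  intro hKH hn M
  obtain ⟨C, hC, h⟩ := l2_shell hKH hn M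
  refine ⟨C, hC, ?_⟩
  intro R hR F _ hF hFb
  have key : ∀ g ∈ box n, ∀ t ∈ Set.Icc (1 : ℝ) 2, ∫⁻ x : Fin n → ℝ,
        ‖∫ u : Fin n → ℝ, KM M n R⁻¹ (t ^ 2 - R⁻¹ ^ 2 / t ^ 2) g (x - u) * Psi R F u‖ₑ ^ (2 : ℝ) ≤
      ENNReal.ofReal (C * R ^ ((M : ℝ) * 2 + 0)) * ∫⁻ u : Fin n → ℝ, ‖F u‖ₑ ^ (2 : ℝ) := by
    intro g hg t ht
    have h1 := h R hR F hF hFb g hg t ht.1
    have h2 : R ^ ((M : ℝ) * 2 + 0) = R ^ (2 * M) := by
      rw [← Real.rpow_natCast]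
      congr 1
      push_cast
      ring
    rw [h2]
    simpa only [ENNReal.rpow_ofNat] using h1
  calc _ ≤ ∫⁻ g in box n, ∫⁻ t in Set.Icc (1 : ℝ) 2,
        ENNReal.ofReal (C * R ^ ((M : ℝ) * 2 + 0)) * ∫⁻ u : Fin n → ℝ, ‖F u‖ₑ ^ (2 : ℝ) :=
        setLIntegral_mono' measurableSet_box fun g hg =>
          setLIntegral_mono' measurableSet_Icc fun t ht => key g hg t ht
    _ = _ := by
        rw [setLIntegral_const, setLIntegral_const, vol_box, Real.volume_Icc]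
        norm_num

end Pool.Agent.T9h41.LG
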