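import Pool.Agent.T9h41.LG.R2
import Pool.Agent.T9h19.LS.Interp
import Pool.Agent.T9h18.LS.Inf

/-!
# Interpolation for a shell (helper41): `S_rp` of `T9h44.LG.Spec2`
-/

set_option autoImplicit false

namespace Pool.Agent.T9h41.LG

open MeasureTheory Real Pool.Agent.T9h44.LS4 Pool.Agent.T9h44.LG Pool.Agent.N303.LS
open Pool.Agent.T9h31.LG (norm_ee ee_add ee_conj continuous_ee measurable_ee)
open Pool.Agent.T9h82.LS (rate)
open Filter Topology Set
open scoped ENNReal ComplexConjugate FourierTransform RealInnerProductSpace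

variable {n : ℕ}

/-! ### the kernel of the projection to the shell -/

lemma vpE : MeasurePreserving (MeasurableEquiv.toLp 2 (Fin n → ℝ)).symm :=
  EuclideanSpace.volume_preserving_symm_measurableEquiv_toLp (Fin n)

/-- `shl` on the Euclidean space -/
noncomputable def shE (ξ : EuclideanSpace ℝ (Fin n)) : ℂ := ((shl ξ.ofLp : ℝ) : ℂ)

lemma shE_eq (ξ : EuclideanSpace ℝ (Fin n)) : shE ξ =
    ((Real.smoothTransition ((‖ξ‖ ^ 2 - 1 / 16) * (16 / 3)) *
      Real.smoothTransition ((16 - ‖ξ‖ ^ 2) / 12) : ℝ) : ℂ) := by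
  unfold shE T9h44.LG.shl
  rw [EuclideanSpace.real_norm_sq_eq]

lemma shE_contDiff : ContDiff ℝ (⊤ : ℕ∞) (shE : EuclideanSpace ℝ (Fin n) → ℂ) := by
  have h : (shE : EuclideanSpace ℝ (Fin n) → ℂ) = fun ξ =>
    ((Real.smoothTransition ((‖ξ‖ ^ 2 - 1 / 16) * (16 / 3)) *
      Real.smoothTransition ((16 - ‖ξ‖ ^ 2) / 12) : ℝ) : ℂ) := funext shE_eq
  rw [h]
  have h1 : ContDiff ℝ (⊤ : ℕ∞) fun ξ : EuclideanSpace ℝ (Fin n) => ‖ξ‖ ^ 2 :=
    contDiff_norm_sq ℝ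
  have h2 : ContDiff ℝ (⊤ : ℕ∞) Real.smoothTransition := Real.smoothTransition.contDiff
  refine Complex.ofRealCLM.contDiff.comp (ContDiff.mul ?_ ?_)
  · exact h2.comp ((h1.sub contDiff_const).mul contDiff_const)
  · exact h2.comp ((contDiff_const.sub h1).div_const _)

lemma shE_compact : HasCompactSupport (shE : EuclideanSpace ℝ (Fin n) → ℂ) := by
  refine HasCompactSupport.intro (isCompact_closedBall 0 4) fun ξ hξ => ?_
  rw [mem_closedBall_zero_iff, not_le] at hξ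
  have h1 : (16 - ‖ξ‖ ^ 2) / 12 ≤ 0 := by nlinarith
  rw [shE_eq, Real.smoothTransition.zero_of_nonpos h1, mul_zero, Complex.ofReal_zero]

/-- the kernel -/
noncomputable def kR (R : ℝ) (z : Fin n → ℝ) : ℂ := ExV (fun ξ => ((shl (R⁻¹ • ξ) : ℝ) : ℂ)) z

lemma kR_one_eq (x : EuclideanSpace ℝ (Fin n)) :
    kR 1 x.ofLp = 𝓕⁻ (shE : EuclideanSpace ℝ (Fin n) → ℂ) x := by
  rw [Real.fourierInv_eq']
  unfold kR T9h44.LG.ExV
  have e2 := vpE.integral_comp (MeasurableEquiv.toLp 2 (Fin n → ℝ)).symm.measurableEmbedding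
    (fun z : Fin n → ℝ => ee (∑ i, x.ofLp i * z i) * ((shl ((1 : ℝ)⁻¹ • z) : ℝ) : ℂ))
  rw [← e2]
  refine integral_congr_ae (Eventually.of_forall fun z => ?_)
  beta_reduce
  rw [smul_eq_mul, inv_one, one_smul]
  unfold shE T9h44.LG.ee
  congr 4

lemma integrable_k1 : Integrable (kR 1 : (Fin n → ℝ) → ℂ) := by
  have h1 : Integrable (𝓕⁻ (shE : EuclideanSpace ℝ (Fin n) → ℂ)) := by
    have h2 := ((𝓕⁻ (shE_compact.toSchwartzMap shE_contDiff :
      SchwartzMap (EuclideanSpace ℝ (Fin n)) ℂ))).integrable (μ := volume)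
    refine h2.congr (Eventually.of_forall fun x => ?_)
    rw [SchwartzMap.fourierInv_coe]
    rfl
  rw [← vpE.integrable_comp_emb
    (MeasurableEquiv.toLp 2 (Fin n → ℝ)).symm.measurableEmbedding]
  refine h1.congr (Eventually.of_forall fun x => ?_)
  exact (kR_one_eq x).symm

lemma kR_eq {R : ℝ} (hR : 0 < R) (z : Fin n → ℝ) :
    kR R z = ((R ^ n : ℝ) : ℂ) * kR 1 (R • z) := by
  unfold kR T9h44.LG.ExV
  have h1 := Measure.integral_comp_smul (volume : Measure (Fin n → ℝ)) (fun ξ : Fin n → ℝ =>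
    ee (∑ i, (R • z) i * ξ i) * ((shl ((1 : ℝ)⁻¹ • ξ) : ℝ) : ℂ)) R⁻¹
  rw [Module.finrank_fin_fun, inv_pow, inv_inv, abs_of_pos (by positivity)] at h1
  rw [← Complex.real_smul, ← h1]
  refine integral_congr_ae (Eventually.of_forall fun ξ => ?_)
  beta_reduce
  rw [inv_one, one_smul]
  congr 2
  refine Finset.sum_congr rfl fun i _ => ?_
  simp only [Pi.smul_apply, smul_eq_mul]
  field_simp

lemma integrable_kR {R : ℝ} (hR : 0 < R) : Integrable (kR R : (Fin n → ℝ) → ℂ) := by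
  have h : (kR R : (Fin n → ℝ) → ℂ) = fun z => ((R ^ n : ℝ) : ℂ) * kR 1 (R • z) :=
    funext fun z => kR_eq hR z
  rw [h]
  exact (integrable_k1.comp_smul hR.ne').const_mul _

lemma norm_kR {R : ℝ} (hR : 0 < R) :
    ∫ z : Fin n → ℝ, ‖kR R z‖ = ∫ z : Fin n → ℝ, ‖kR 1 z‖ := by
  have h : ∀ z : Fin n → ℝ, ‖kR R z‖ = R ^ n * ‖kR 1 (R • z)‖ := by
    intro z
    rw [kR_eq hR, norm_mul, Complex.norm_real, Real.norm_of_nonneg (by positivity)]
  simp only [h]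
  rw [integral_const_mul, Measure.integral_comp_smul (volume : Measure (Fin n → ℝ))
    (fun z => ‖kR 1 z‖) R, Module.finrank_fin_fun, abs_of_pos (by positivity), smul_eq_mul]
  field_simp

lemma integrable_shR {R : ℝ} (hR : 0 < R) :
    Integrable (fun ξ : Fin n → ℝ => ((shl (R⁻¹ • ξ) : ℝ) : ℂ)) := by
  refine NiceV.integrable ⟨?_, ⟨1, fun ξ => ?_⟩, 4 * R, fun ξ hξ i => ?_⟩
  · exact (Complex.continuous_ofReal.comp (continuous_shl.comp (by fun_prop))).measurable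
  · rw [Complex.norm_real, Real.norm_of_nonneg (shl_nonneg _)]
    exact shl_le_one _
  · have h1 : shl (R⁻¹ • ξ) ≠ 0 := fun h0 => hξ (by
      change ((shl (R⁻¹ • ξ) : ℝ) : ℂ) = 0
      rw [h0, Complex.ofReal_zero])
    have h2 := (of_shl h1).2
    have h3 : ξ i ^ 2 ≤ ∑ i, ξ i ^ 2 :=
      Finset.single_le_sum (f := fun i => ξ i ^ 2) (fun i _ => sq_nonneg _) (Finset.mem_univ i)
    rw [sum_scaled hR ξ] at h3
    refine abs_le_of_sq_le_sq ?_ (by positivity)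
    nlinarith [pow_pos hR 2]

lemma Psi_conv {R : ℝ} (hR : 0 < R) {F : (Fin n → ℝ) → ℂ} (hF : Integrable F) (u : Fin n → ℝ) :
    Psi R F u = ∫ v : Fin n → ℝ, F v * kR R (u - v) := by
  have hint : Integrable (fun p : (Fin n → ℝ) × (Fin n → ℝ) =>
      ee (∑ i, u i * p.1 i + -∑ i, p.2 i * p.1 i) * (((shl (R⁻¹ • p.1) : ℝ) : ℂ) * F p.2))
      (volume.prod volume) := by
    refine Integrable.bdd_mul (c := 1) ((integrable_shR hR).mul_prod hF) ?_ ?_
    · exact (continuous_ee.comp (by fun_prop)).aestronglyMeasurable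
    · exact Eventually.of_forall fun p => (norm_ee _).le
  unfold T9h44.LG.Psi kR T9h44.LG.ExV
  calc ∫ ξ : Fin n → ℝ, ee (∑ i, u i * ξ i) * (((shl (R⁻¹ • ξ) : ℝ) : ℂ) *
        ∫ v : Fin n → ℝ, ee (-∑ i, v i * ξ i) * F v)
      = ∫ ξ : Fin n → ℝ, ∫ v : Fin n → ℝ, ee (∑ i, u i * ξ i + -∑ i, v i * ξ i) *
          (((shl (R⁻¹ • ξ) : ℝ) : ℂ) * F v) := by
        refine integral_congr_ae (Eventually.of_forall fun ξ => ?_)
        change ee (∑ i, u i * ξ i) * (((shl (R⁻¹ • ξ) : ℝ) : ℂ) *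
          ∫ v : Fin n → ℝ, ee (-∑ i, v i * ξ i) * F v) = _
        rw [← mul_assoc, ← integral_const_mul]
        refine integral_congr_ae (Eventually.of_forall fun v => ?_)
        beta_reduce
        rw [ee_add]
        ring
    _ = ∫ v : Fin n → ℝ, ∫ ξ : Fin n → ℝ, ee (∑ i, u i * ξ i + -∑ i, v i * ξ i) *
          (((shl (R⁻¹ • ξ) : ℝ) : ℂ) * F v) := integral_integral_swap hint
    _ = _ := by
        refine integral_congr_ae (Eventually.of_forall fun v => ?_)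
        change ∫ ξ : Fin n → ℝ, ee (∑ i, u i * ξ i + -∑ i, v i * ξ i) *
          (((shl (R⁻¹ • ξ) : ℝ) : ℂ) * F v) = F v * ∫ ξ : Fin n → ℝ,
            ee (∑ i, (u - v) i * ξ i) * ((shl (R⁻¹ • ξ) : ℝ) : ℂ)
        rw [← integral_const_mul]
        refine integral_congr_ae (Eventually.of_forall fun ξ => ?_)
        beta_reduce
        have h2 : ∑ i, (u - v) i * ξ i = (∑ i, u i * ξ i) + -∑ i, v i * ξ i := by
          rw [← Finset.sum_neg_distrib, ← Finset.sum_add_distrib]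
          refine Finset.sum_congr rfl fun i _ => ?_
          simp only [Pi.sub_apply]
          ring
        rw [h2]
        ring

lemma continuous_ExV {G : (Fin n → ℝ) → ℂ} (h1 : Integrable G) : Continuous (ExV G) := by
  refine continuous_of_dominated (bound := fun ζ => ‖G ζ‖) (fun y => ?_)
    (fun y => Eventually.of_forall fun z => ?_) h1.norm (Eventually.of_forall fun z => ?_)
  · refine AEStronglyMeasurable.mul ?_ h1.aestronglyMeasurable
    exact (continuous_ee.comp (by fun_prop)).aestronglyMeasurable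
  · rw [norm_mul, norm_ee, one_mul]
  · exact (continuous_ee.comp (by fun_prop)).mul continuous_const

lemma continuous_Psi {R : ℝ} (hR : 0 < R) {F : (Fin n → ℝ) → ℂ} (hF : Integrable F) :
    Continuous (Psi R F) := by
  rw [Psi_eq]
  exact continuous_ExV (NiceV.integrable (niceV_GS hR hF))

lemma integrable_Psi {R : ℝ} (hR : 0 < R) {F : (Fin n → ℝ) → ℂ} (hF : Integrable F) :
    Integrable (Psi R F) := by
  have h := hF.integrable_convolution (ContinuousLinearMap.mul ℂ ℂ) (integrable_kR (n := n) hR)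
  refine h.congr (Eventually.of_forall fun u => ?_)
  rw [convolution_def, Psi_conv hR hF]
  rfl

lemma norm_Psi_le {R : ℝ} (hR : 0 < R) {F : (Fin n → ℝ) → ℂ} (hF : Integrable F) {B : ℝ}
    (hB : ∀ u, ‖F u‖ ≤ B) (u : Fin n → ℝ) :
    ‖Psi R F u‖ ≤ (∫ z : Fin n → ℝ, ‖kR 1 z‖) * B := by
  rw [Psi_conv hR hF, ← norm_kR hR]
  calc ‖∫ v : Fin n → ℝ, F v * kR R (u - v)‖ ≤ ∫ v : Fin n → ℝ, B * ‖kR R (u - v)‖ := by
        refine norm_integral_le_of_norm_le (((integrable_kR hR).comp_sub_left u).norm.const_mul B)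
          (Eventually.of_forall fun v => ?_)
        rw [norm_mul]
        exact mul_le_mul_of_nonneg_right (hB v) (norm_nonneg _)
    _ = _ := by
        rw [integral_const_mul, integral_sub_left_eq_self (fun z => ‖kR R z‖) volume u, mul_comm]

lemma Fh_add {F G : (Fin n → ℝ) → ℂ} (hF : Integrable F) (hG : Integrable G) (ξ : Fin n → ℝ) :
    Fh (F + G) ξ = Fh F ξ + Fh G ξ := by
  unfold Fh
  rw [← integral_add]
  · refine integral_congr_ae (Eventually.of_forall fun v => ?_)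
    simp only [Pi.add_apply, mul_add]
  · refine hF.bdd_mul (c := 1) ?_ (Eventually.of_forall fun p => (norm_ee _).le)
    exact (continuous_ee.comp (by fun_prop)).aestronglyMeasurable
  · refine hG.bdd_mul (c := 1) ?_ (Eventually.of_forall fun p => (norm_ee _).le)
    exact (continuous_ee.comp (by fun_prop)).aestronglyMeasurable

lemma ExV_add {F G : (Fin n → ℝ) → ℂ} (hF : Integrable F) (hG : Integrable G) (x : Fin n → ℝ) :
    ExV (fun ξ => F ξ + G ξ) x = ExV F x + ExV G x := by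
  unfold T9h44.LG.ExV
  rw [← integral_add]
  · refine integral_congr_ae (Eventually.of_forall fun v => ?_)
    simp only [mul_add]
  · refine hF.bdd_mul (c := 1) ?_ (Eventually.of_forall fun p => (norm_ee _).le)
    exact (continuous_ee.comp (by fun_prop)).aestronglyMeasurable
  · refine hG.bdd_mul (c := 1) ?_ (Eventually.of_forall fun p => (norm_ee _).le)
    exact (continuous_ee.comp (by fun_prop)).aestronglyMeasurable

lemma Psi_add {R : ℝ} (hR : 0 < R) {F G : (Fin n → ℝ) → ℂ} (hF : Integrable F)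
    (hG : Integrable G) (u : Fin n → ℝ) : Psi R (F + G) u = Psi R F u + Psi R G u := by
  have h1 : GS R (F + G) = fun ξ => GS R F ξ + GS R G ξ := by
    funext ξ
    unfold GS
    rw [Fh_add hF hG, mul_add]
  rw [Psi_eq, Psi_eq, Psi_eq, h1]
  exact ExV_add (NiceV.integrable (niceV_GS hR hF)) (NiceV.integrable (niceV_GS hR hG)) u

/-! ### the operator -/

lemma meas_KM3 (M : ℕ) {y : ℝ} (hy : 0 < y) :
    Measurable fun p : ℝ × (Fin n → ℝ) × (Fin n → ℝ) => KM M n y p.1 p.2.1 p.2.2 := by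
  have h : (fun p : ℝ × (Fin n → ℝ) × (Fin n → ℝ) => KM M n y p.1 p.2.1 p.2.2) =
      fun p => (Real.Gamma (((n : ℝ) + 1) / 2 + M) : ℂ) *
      rate y p.1 p.2.1 p.2.2 ^ (-((((n : ℝ) + 1) / 2 + M : ℝ) : ℂ)) :=
    funext fun p => KM_eq M hy p.1 p.2.1 p.2.2
  rw [h]
  have hq : Measurable fun p : ℝ × (Fin n → ℝ) × (Fin n → ℝ) => q p.2.1 p.2.2 := by
    unfold T9h44.LS4.q
    fun_prop
  unfold T9h82.LS.rate
  fun_prop

lemma KM_bdd (M : ℕ) {y : ℝ} (hy : 0 < y) (w : ℝ) (g z : Fin n → ℝ) :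
    ‖KM M n y w g z‖ ≤ Real.Gamma (((n : ℝ) + 1) / 2 + M) / y ^ (((n : ℝ) + 1) / 2 + M) := by
  rw [norm_KM M hy]
  refine div_le_div_of_nonneg_left (Real.Gamma_pos_of_pos (by positivity)).le (by positivity) ?_
  exact Real.rpow_le_rpow hy.le (norm_rate_ge hy w g z) (by positivity)

/-- the operator -/
noncomputable def VT (M : ℕ) (R : ℝ) (F : (Fin n → ℝ) → ℂ)
    (p : (Fin n → ℝ) × ℝ × (Fin n → ℝ)) : ℂ :=
  ∫ u : Fin n → ℝ, KM M n R⁻¹ (p.2.1 ^ 2 - R⁻¹ ^ 2 / p.2.1 ^ 2) p.1 (p.2.2 - u) * Psi R F u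

lemma VT_int (M : ℕ) {R : ℝ} (hR : 0 < R) {F : (Fin n → ℝ) → ℂ} (hF : Integrable F)
    (p : (Fin n → ℝ) × ℝ × (Fin n → ℝ)) :
    Integrable fun u => KM M n R⁻¹ (p.2.1 ^ 2 - R⁻¹ ^ 2 / p.2.1 ^ 2) p.1 (p.2.2 - u) *
      Psi R F u := by
  have hy : 0 < R⁻¹ := by positivity
  refine (integrable_Psi hR hF).bdd_mul
    (c := Real.Gamma (((n : ℝ) + 1) / 2 + M) / R⁻¹ ^ (((n : ℝ) + 1) / 2 + M)) ?_
    (Eventually.of_forall fun u => KM_bdd M hy _ _ _)
  exact ((measurable_KM M hy _ _).comp (by fun_prop)).aestronglyMeasurable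

lemma VT_add (M : ℕ) {R : ℝ} (hR : 0 < R) {F G : (Fin n → ℝ) → ℂ} (hF : Integrable F)
    (hG : Integrable G) (p : (Fin n → ℝ) × ℝ × (Fin n → ℝ)) :
    VT M R (F + G) p = VT M R F p + VT M R G p := by
  unfold VT
  rw [← integral_add (VT_int M hR hF p) (VT_int M hR hG p)]
  refine integral_congr_ae (Eventually.of_forall fun u => ?_)
  beta_reduce
  rw [Psi_add hR hF hG]
  ring

lemma meas_VT (M : ℕ) {R : ℝ} (hR : 0 < R) {F : (Fin n → ℝ) → ℂ} (hF : Integrable F) :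
    Measurable (VT M R F) := by
  have hy : 0 < R⁻¹ := by positivity
  have h1 : Measurable fun p : ((Fin n → ℝ) × ℝ × (Fin n → ℝ)) × (Fin n → ℝ) =>
      KM M n R⁻¹ (p.1.2.1 ^ 2 - R⁻¹ ^ 2 / p.1.2.1 ^ 2) p.1.1 (p.1.2.2 - p.2) :=
    Measurable.comp (g := fun p : ℝ × (Fin n → ℝ) × (Fin n → ℝ) => KM M n R⁻¹ p.1 p.2.1 p.2.2)
      (f := fun p : ((Fin n → ℝ) × ℝ × (Fin n → ℝ)) × (Fin n → ℝ) =>
        (p.1.2.1 ^ 2 - R⁻¹ ^ 2 / p.1.2.1 ^ 2, p.1.1, p.1.2.2 - p.2))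
      (meas_KM3 M hy) (by fun_prop)
  exact ((h1.mul ((continuous_Psi hR hF).measurable.comp
    measurable_snd)).stronglyMeasurable.integral_prod_right').measurable

lemma iter (f : (Fin n → ℝ) × ℝ × (Fin n → ℝ) → ℝ≥0∞) (hf : Measurable f) :
    ∫⁻ g in box n, ∫⁻ t in Set.Icc (1 : ℝ) 2, ∫⁻ x : Fin n → ℝ, f (g, t, x) =
      ∫⁻ p, f p ∂((volume.restrict (box n)).prod
        ((volume.restrict (Set.Icc (1 : ℝ) 2)).prod (volume : Measure (Fin n → ℝ)))) := by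
  rw [lintegral_prod _ hf.aemeasurable]
  refine lintegral_congr fun g => ?_
  rw [lintegral_prod]
  exact (hf.comp (measurable_prodMk_left)).aemeasurable

lemma ae_box : ∀ᵐ q ∂((volume.restrict (box n)).prod
    ((volume.restrict (Set.Icc (1 : ℝ) 2)).prod (volume : Measure (Fin n → ℝ)))),
    q.1 ∈ box n ∧ q.2.1 ∈ Set.Icc (1 : ℝ) 2 := by
  have e : (volume.restrict (box n)).prod
    ((volume.restrict (Set.Icc (1 : ℝ) 2)).prod (volume : Measure (Fin n → ℝ))) =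
      ((volume : Measure (Fin n → ℝ)).prod ((volume : Measure ℝ).prod
        (volume : Measure (Fin n → ℝ)))).restrict
        (box n ×ˢ (Set.Icc (1 : ℝ) 2 ×ˢ (Set.univ : Set (Fin n → ℝ)))) := by
    rw [← Measure.prod_restrict, ← Measure.prod_restrict, Measure.restrict_univ]
  rw [e]
  filter_upwards [ae_restrict_mem (measurableSet_box.prod
    (measurableSet_Icc.prod MeasurableSet.univ))] with q hq
  exact ⟨hq.1, hq.2.1⟩

/-- the form of `RS` -/
lemma rs_iff (M : ℕ) (p e : ℝ) : RS n M p e ↔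
    ∃ C : ℝ, 0 < C ∧ ∀ R : ℝ, 1 ≤ R → ∀ F : (Fin n → ℝ) → ℂ, Measurable F → Integrable F →
    (∃ B : ℝ, ∀ u, ‖F u‖ ≤ B) →
    ∫⁻ q, ‖VT M R F q‖ₑ ^ p ∂((volume.restrict (box n)).prod
        ((volume.restrict (Set.Icc (1 : ℝ) 2)).prod (volume : Measure (Fin n → ℝ)))) ≤
      ENNReal.ofReal (C * R ^ (M * p + e)) * ∫⁻ u : Fin n → ℝ, ‖F u‖ₑ ^ p := by
  unfold T9h44.LG.RS
  have key : ∀ R : ℝ, 1 ≤ R → ∀ F : (Fin n → ℝ) → ℂ, Integrable F →
      ∫⁻ q, ‖VT M R F q‖ₑ ^ p ∂((volume.restrict (box n)).prod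
        ((volume.restrict (Set.Icc (1 : ℝ) 2)).prod (volume : Measure (Fin n → ℝ)))) =
      ∫⁻ g in box n, ∫⁻ t in Set.Icc (1 : ℝ) 2, ∫⁻ x : Fin n → ℝ,
        ‖∫ u : Fin n → ℝ, KM M n R⁻¹ (t ^ 2 - R⁻¹ ^ 2 / t ^ 2) g (x - u) * Psi R F u‖ₑ ^ p := by
    intro R hR F hF
    rw [← iter _ ((meas_VT M (by linarith) hF).enorm.pow_const p)]
    rfl
  constructor
  · rintro ⟨C, hC, h⟩
    refine ⟨C, hC, fun R hR F hFm hF hFb => ?_⟩
    rw [key R hR F hF]
    exact h R hR F hFm hF hFb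
  · rintro ⟨C, hC, h⟩
    refine ⟨C, hC, fun R hR F hFm hF hFb => ?_⟩
    rw [← key R hR F hF]
    exact h R hR F hFm hF hFb

lemma rs_mono {M : ℕ} {p e e' : ℝ} (he : e ≤ e') (h : RS n M p e) : RS n M p e' := by
  obtain ⟨C, hC, h⟩ := h
  refine ⟨C, hC, fun R hR F hFm hF hFb => (h R hR F hFm hF hFb).trans ?_⟩
  refine mul_le_mul' (ENNReal.ofReal_le_ofReal (mul_le_mul_of_nonneg_left ?_ hC.le)) le_rfl
  exact Real.rpow_le_rpow_of_exponent_le hR (by linarith)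

theorem rp_lo {M : ℕ} {ε p : ℝ} (hε : 0 < ε) (h2 : RS n M 2 0) (h4 : RS n M 4 ε) (hp2 : 2 < p)
    (hp4 : p < 4) : RS n M p ε := by
  rw [rs_iff] at *
  obtain ⟨C2, hC2, h2⟩ := h2
  obtain ⟨C4, hC4, h4⟩ := h4
  obtain ⟨C0, hC0, hI⟩ := Pool.Agent.T9h19.LS.interp_volume hp2 hp4
  refine ⟨C0 * (C2 ^ ((4 - p) / 2) * C4 ^ ((p - 2) / 2)), by positivity, ?_⟩
  intro R hR F hFm hFi hFb
  have hR0 : 0 < R := by linarith
  have h5 := hI ((Fin n → ℝ) × ℝ × (Fin n → ℝ)) ((volume.restrict (box n)).prod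
        ((volume.restrict (Set.Icc (1 : ℝ) 2)).prod (volume : Measure (Fin n → ℝ)))) n
    (fun F q => VT M R F q) (ENNReal.ofReal (C2 * R ^ ((M : ℝ) * 2 + 0)))
    (ENNReal.ofReal (C4 * R ^ ((M : ℝ) * 4 + ε)))
    (fun F _ hF _ => (meas_VT M hR0 hF).aestronglyMeasurable)
    (fun F hF hi hb => h2 R hR F hF hi hb)
    (fun F hF hi hb => h4 R hR F hF hi hb)
    (fun F G hF hFi' _ hG hGi' _ q => by
      rw [VT_add M hR0 hFi' hGi']
      exact norm_add_le _ _)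
    F hFm hFi hFb
  refine h5.trans (mul_le_mul' ?_ le_rfl)
  rw [ENNReal.ofReal_rpow_of_nonneg (by positivity) (by linarith),
    ENNReal.ofReal_rpow_of_nonneg (by positivity) (by linarith), ← ENNReal.ofReal_mul hC0.le,
    ← ENNReal.ofReal_mul (by positivity)]
  refine ENNReal.ofReal_le_ofReal ?_
  rw [Real.mul_rpow hC2.le (by positivity), Real.mul_rpow hC4.le (by positivity),
    ← Real.rpow_mul hR0.le, ← Real.rpow_mul hR0.le]
  have e1 : C0 * (C2 ^ ((4 - p) / 2) * R ^ (((M : ℝ) * 2 + 0) * ((4 - p) / 2))) *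
      (C4 ^ ((p - 2) / 2) * R ^ (((M : ℝ) * 4 + ε) * ((p - 2) / 2))) =
      C0 * (C2 ^ ((4 - p) / 2) * C4 ^ ((p - 2) / 2)) *
        R ^ (((M : ℝ) * 2 + 0) * ((4 - p) / 2) + ((M : ℝ) * 4 + ε) * ((p - 2) / 2)) := by
    rw [Real.rpow_add hR0]
    ring
  rw [e1]
  refine mul_le_mul_of_nonneg_left ?_ (by positivity)
  refine Real.rpow_le_rpow_of_exponent_le hR ?_
  nlinarith

theorem rp_hi (hn : 1 ≤ n) {M : ℕ} (hM : 1 ≤ M) {ε p : ℝ} (hl : S_l1 n) (h4 : RS n M 4 ε)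
    (hp4 : 4 < p) : RS n M p (ε + (p - 4) * (((n : ℝ) - 1) / 2)) := by
  rw [rs_iff] at *
  obtain ⟨C4, hC4, h4⟩ := h4
  obtain ⟨C1, hC1, h1⟩ := hl hn M hM
  obtain ⟨C0, hC0, hI⟩ := Pool.Agent.T9h18.LS.inf p hp4
  have hp0 : 0 < p - 4 := by linarith
  set k : ℝ := (∫ z : Fin n → ℝ, ‖kR 1 z‖) + 1 with hk
  have hk0 : 0 ≤ ∫ z : Fin n → ℝ, ‖kR 1 z‖ := integral_nonneg fun _ => norm_nonneg _
  have hk1 : 0 < k := by linarith
  refine ⟨C0 * (C1 * k) ^ (p - 4) * C4, by positivity, ?_⟩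
  intro R hR F hFm hFi hFb
  have hR0 : 0 < R := by linarith
  have hy0 : 0 < R⁻¹ := by positivity
  have hy1 : R⁻¹ ≤ 1 := inv_le_one_of_one_le₀ hR
  set Ai : ℝ := C1 * k * R ^ (((n : ℝ) - 1) / 2 + M) with hAi
  have hAi0 : 0 < Ai := by positivity
  have hRy : (R⁻¹ : ℝ) ^ (-(((n : ℝ) - 1) / 2 + M)) = R ^ (((n : ℝ) - 1) / 2 + M) := by
    rw [Real.inv_rpow hR0.le, Real.rpow_neg hR0.le, inv_inv]
  have h5 := hI ((Fin n → ℝ) × ℝ × (Fin n → ℝ)) ((volume.restrict (box n)).prod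
        ((volume.restrict (Set.Icc (1 : ℝ) 2)).prod (volume : Measure (Fin n → ℝ)))) n
    (fun F q => VT M R F q) (ENNReal.ofReal (C4 * R ^ ((M : ℝ) * 4 + ε))) Ai hAi0
    (fun F _ hF _ => (meas_VT M hR0 hF).aestronglyMeasurable)
    (fun F hF hi hb => h4 R hR F hF hi hb)
    (fun F hF hi B hB => by
      filter_upwards [ae_box] with q hq
      have h6 := h1 _ hq.1 R⁻¹ q.2.1 hy0 hy1 hq.2
      rw [hRy] at h6
      have hB0 : 0 ≤ B := (norm_nonneg _).trans (hB 0)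
      have hPsi : ∀ u, ‖Psi R F u‖ ≤ k * B := fun u =>
        (norm_Psi_le hR0 hi hB u).trans (mul_le_mul_of_nonneg_right (by linarith) hB0)
      have h7 : ‖VT M R F q‖ₑ ≤ ENNReal.ofReal (Ai * B) := by
        unfold VT
        calc ‖∫ u, KM M n R⁻¹ (q.2.1 ^ 2 - R⁻¹ ^ 2 / q.2.1 ^ 2) q.1 (q.2.2 - u) * Psi R F u‖ₑ
            ≤ ∫⁻ u, ‖KM M n R⁻¹ (q.2.1 ^ 2 - R⁻¹ ^ 2 / q.2.1 ^ 2) q.1 (q.2.2 - u) *
                Psi R F u‖ₑ := enorm_integral_le_lintegral_enorm _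
          _ ≤ ∫⁻ u, ‖KM M n R⁻¹ (q.2.1 ^ 2 - R⁻¹ ^ 2 / q.2.1 ^ 2) q.1 (q.2.2 - u)‖ₑ *
                ENNReal.ofReal (k * B) := by
              refine lintegral_mono fun u => ?_
              simp only [enorm_mul]
              refine mul_le_mul' le_rfl ?_
              rw [← ofReal_norm]
              exact ENNReal.ofReal_le_ofReal (hPsi u)
          _ = (∫⁻ u, ‖KM M n R⁻¹ (q.2.1 ^ 2 - R⁻¹ ^ 2 / q.2.1 ^ 2) q.1 u‖ₑ) *
                ENNReal.ofReal (k * B) := by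
              rw [lintegral_mul_const' _ _ ENNReal.ofReal_ne_top]
              congr 1
              exact lintegral_sub_left_eq_self
                (fun u => ‖KM M n R⁻¹ (q.2.1 ^ 2 - R⁻¹ ^ 2 / q.2.1 ^ 2) q.1 u‖ₑ) q.2.2
          _ ≤ ENNReal.ofReal (C1 * R ^ (((n : ℝ) - 1) / 2 + M)) * ENNReal.ofReal (k * B) :=
              mul_le_mul' h6 le_rfl
          _ = _ := by
              rw [← ENNReal.ofReal_mul (by positivity)]
              congr 1
              rw [hAi]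
              ring
      rw [← ofReal_norm] at h7
      exact (ENNReal.ofReal_le_ofReal_iff (by positivity)).1 h7)
    (fun F G hF hFi' _ hG hGi' _ q => by
      rw [VT_add M hR0 hFi' hGi']
      exact norm_add_le _ _)
    F hFm hFi hFb
  refine h5.trans (le_of_eq ?_)
  congr 1
  rw [← ENNReal.ofReal_mul (by positivity)]
  congr 1
  rw [hAi, Real.mul_rpow (by positivity) (by positivity), ← Real.rpow_mul hR0.le]
  have e1 : C0 * ((C1 * k) ^ (p - 4) * R ^ ((((n : ℝ) - 1) / 2 + M) * (p - 4))) *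
      (C4 * R ^ ((M : ℝ) * 4 + ε)) = C0 * (C1 * k) ^ (p - 4) * C4 *
        R ^ ((((n : ℝ) - 1) / 2 + M) * (p - 4) + ((M : ℝ) * 4 + ε)) := by
    rw [Real.rpow_add hR0 ((((n : ℝ) - 1) / 2 + M) * (p - 4))]
    ring
  rw [e1]
  congr 2
  ring

theorem s_rp (n : ℕ) : S_r2 n → S_l1 n → S_rp n := by
  intro h2 hl hn M ε hM hε h4 p hp
  by_cases hp4 : p ≤ 4
  · rw [if_pos hp4, add_zero]
    rcases hp.eq_or_lt with rfl | hp2
    · exact rs_mono hε.le (h2 hn M)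
    rcases hp4.eq_or_lt with rfl | hp4'
    · exact h4
    exact rp_lo hε (h2 hn M) h4 hp2 hp4'
  · rw [if_neg hp4]
    exact rp_hi hn hM hl h4 (not_le.1 hp4)

end Pool.Agent.T9h41.LG
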