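import Pool.Agent.T9h44.LG.Spec4
import Pool.Agent.T9h41.LG.Rp

/-!
# `S_r2I` and `S_rpI` of `T9h44.LG.Spec4` (helper41)
-/

set_option autoImplicit false

namespace Pool.Agent.T9h41.LG

open MeasureTheory Real Pool.Agent.T9h44.LS4 Pool.Agent.T9h44.LS5 Pool.Agent.T9h44.LG
open Filter Topology Set
open scoped ENNReal ComplexConjugate

variable {n : ℕ}

theorem s_r2I (n : ℕ) : S_kh n → S_r2I n := by
  intro hKH hn M I
  obtain ⟨C, hC, h⟩ := l2_shell hKH hn M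
  refine ⟨C, hC, ?_⟩
  intro g₀ hg₀ R hR F _ hF hFb
  have key : ∀ g ∈ box n, ∀ t ∈ Set.Icc (1 : ℝ) 2, ∫⁻ x : Fin n → ℝ,
        ‖∫ u : Fin n → ℝ, KM M n R⁻¹ (t ^ 2 - R⁻¹ ^ 2 / t ^ 2) (mix I g₀ g) (x - u) *
          Psi R F u‖ₑ ^ (2 : ℝ) ≤
      ENNReal.ofReal (C * R ^ ((M : ℝ) * 2 + 0)) * ∫⁻ u : Fin n → ℝ, ‖F u‖ₑ ^ (2 : ℝ) := by
    intro g hg t ht
    have h1 := h R hR F hF hFb (mix I g₀ g) (mix_mem I g₀ g hg₀ hg) t ht.1
    have h2 : R ^ ((M : ℝ) * 2 + 0) = R ^ (2 * M) := by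
      rw [← Real.rpow_natCast]
      congr 1
      push_cast
      ring
    rw [h2]
    simpa only [ENNReal.rpow_ofNat] using h1
  calc _ ≤ ∫⁻ g in box n, ∫⁻ t in Set.Icc (1 : ℝ) 2,
        ENNReal.ofReal (C * R ^ ((M : ℝ) * 2 + 0)) * ∫⁻ u : Fin n → ℝ, ‖F u‖ₑ ^ (2 : ℝ) :=
        setLIntegral_mono' measurableSet_box fun g hg =>
          setLIntegral_mono' measurableSet_Icc fun t ht => key g hg t ht
    _ = _ := by
        rw [setLIntegral_const, setLIntegral_const, vol_box, Real.volume_Icc]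
        norm_num

/-- the operator -/
noncomputable def VI (I : Finset (Fin n)) (g₀ : Fin n → ℝ) (M : ℕ) (R : ℝ)
    (F : (Fin n → ℝ) → ℂ) (p : (Fin n → ℝ) × ℝ × (Fin n → ℝ)) : ℂ :=
  VT M R F (mix I g₀ p.1, p.2.1, p.2.2)

lemma meas_VI (I : Finset (Fin n)) (g₀ : Fin n → ℝ) (M : ℕ) {R : ℝ} (hR : 0 < R)
    {F : (Fin n → ℝ) → ℂ} (hF : Integrable F) : Measurable (VI I g₀ M R F) := by
  have hmix : Measurable (mix I g₀) := (mix_cont I g₀).measurable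
  exact (meas_VT M hR hF).comp
    (f := fun p : (Fin n → ℝ) × ℝ × (Fin n → ℝ) => (mix I g₀ p.1, p.2.1, p.2.2)) (by fun_prop)

/-- the form of `RSI` -/
lemma rsi_iff (M : ℕ) (I : Finset (Fin n)) (p e : ℝ) : RSI n M I p e ↔
    ∃ C : ℝ, 0 < C ∧ ∀ g₀ ∈ box n, ∀ R : ℝ, 1 ≤ R → ∀ F : (Fin n → ℝ) → ℂ, Measurable F →
    Integrable F → (∃ B : ℝ, ∀ u, ‖F u‖ ≤ B) →
    ∫⁻ q, ‖VI I g₀ M R F q‖ₑ ^ p ∂((volume.restrict (box n)).prod
        ((volume.restrict (Set.Icc (1 : ℝ) 2)).prod (volume : Measure (Fin n → ℝ)))) ≤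
      ENNReal.ofReal (C * R ^ (M * p + e)) * ∫⁻ u : Fin n → ℝ, ‖F u‖ₑ ^ p := by
  unfold T9h44.LG.RSI
  have key : ∀ (g₀ : Fin n → ℝ) (R : ℝ), 1 ≤ R → ∀ F : (Fin n → ℝ) → ℂ, Integrable F →
      ∫⁻ q, ‖VI I g₀ M R F q‖ₑ ^ p ∂((volume.restrict (box n)).prod
        ((volume.restrict (Set.Icc (1 : ℝ) 2)).prod (volume : Measure (Fin n → ℝ)))) =
      ∫⁻ g in box n, ∫⁻ t in Set.Icc (1 : ℝ) 2, ∫⁻ x : Fin n → ℝ,
        ‖∫ u : Fin n → ℝ, KM M n R⁻¹ (t ^ 2 - R⁻¹ ^ 2 / t ^ 2) (mix I g₀ g) (x - u) *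
          Psi R F u‖ₑ ^ p := by
    intro g₀ R hR F hF
    rw [← iter _ ((meas_VI I g₀ M (by linarith) hF).enorm.pow_const p)]
    rfl
  constructor
  · rintro ⟨C, hC, h⟩
    refine ⟨C, hC, fun g₀ hg₀ R hR F hFm hF hFb => ?_⟩
    rw [key g₀ R hR F hF]
    exact h g₀ hg₀ R hR F hFm hF hFb
  · rintro ⟨C, hC, h⟩
    refine ⟨C, hC, fun g₀ hg₀ R hR F hFm hF hFb => ?_⟩
    rw [← key g₀ R hR F hF]
    exact h g₀ hg₀ R hR F hFm hF hFb

theorem rpI_lo {M : ℕ} {I : Finset (Fin n)} {e p : ℝ} (h2 : RSI n M I 2 0)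
    (h4 : RSI n M I 4 e) (hp2 : 2 < p) (hp4 : p < 4) : RSI n M I p (e * ((p - 2) / 2)) := by
  rw [rsi_iff] at *
  obtain ⟨C2, hC2, h2⟩ := h2
  obtain ⟨C4, hC4, h4⟩ := h4
  obtain ⟨C0, hC0, hI⟩ := Pool.Agent.T9h19.LS.interp_volume hp2 hp4
  refine ⟨C0 * (C2 ^ ((4 - p) / 2) * C4 ^ ((p - 2) / 2)), by positivity, ?_⟩
  intro g₀ hg₀ R hR F hFm hFi hFb
  have hR0 : 0 < R := by linarith
  have h5 := hI ((Fin n → ℝ) × ℝ × (Fin n → ℝ)) ((volume.restrict (box n)).prod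
        ((volume.restrict (Set.Icc (1 : ℝ) 2)).prod (volume : Measure (Fin n → ℝ)))) n
    (fun F q => VI I g₀ M R F q) (ENNReal.ofReal (C2 * R ^ ((M : ℝ) * 2 + 0)))
    (ENNReal.ofReal (C4 * R ^ ((M : ℝ) * 4 + e)))
    (fun F _ hF _ => (meas_VI I g₀ M hR0 hF).aestronglyMeasurable)
    (fun F hF hi hb => h2 g₀ hg₀ R hR F hF hi hb)
    (fun F hF hi hb => h4 g₀ hg₀ R hR F hF hi hb)
    (fun F G hF hFi' _ hG hGi' _ q => by
      unfold VI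
      rw [VT_add M hR0 hFi' hGi']
      exact norm_add_le _ _)
    F hFm hFi hFb
  refine h5.trans (mul_le_mul' (le_of_eq ?_) le_rfl)
  rw [ENNReal.ofReal_rpow_of_nonneg (by positivity) (by linarith),
    ENNReal.ofReal_rpow_of_nonneg (by positivity) (by linarith), ← ENNReal.ofReal_mul hC0.le,
    ← ENNReal.ofReal_mul (by positivity)]
  congr 1
  rw [Real.mul_rpow hC2.le (by positivity), Real.mul_rpow hC4.le (by positivity),
    ← Real.rpow_mul hR0.le, ← Real.rpow_mul hR0.le]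
  have e1 : C0 * (C2 ^ ((4 - p) / 2) * R ^ (((M : ℝ) * 2 + 0) * ((4 - p) / 2))) *
      (C4 ^ ((p - 2) / 2) * R ^ (((M : ℝ) * 4 + e) * ((p - 2) / 2))) =
      C0 * (C2 ^ ((4 - p) / 2) * C4 ^ ((p - 2) / 2)) *
        R ^ (((M : ℝ) * 2 + 0) * ((4 - p) / 2) + ((M : ℝ) * 4 + e) * ((p - 2) / 2)) := by
    rw [Real.rpow_add hR0 (((M : ℝ) * 2 + 0) * ((4 - p) / 2))]
    ring
  rw [e1]
  congr 2
  ring

theorem rpI_hi (hn : 1 ≤ n) {M : ℕ} (hM : 1 ≤ M) {I : Finset (Fin n)} {ε p : ℝ} (hl : S_l1 n)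
    (h4 : RSI n M I 4 ε) (hp4 : 4 < p) : RSI n M I p (ε + (p - 4) * (((n : ℝ) - 1) / 2)) := by
  rw [rsi_iff] at *
  obtain ⟨C4, hC4, h4⟩ := h4
  obtain ⟨C1, hC1, h1⟩ := hl hn M hM
  obtain ⟨C0, hC0, hI⟩ := Pool.Agent.T9h18.LS.inf p hp4
  have hp0 : 0 < p - 4 := by linarith
  set k : ℝ := (∫ z : Fin n → ℝ, ‖kR 1 z‖) + 1 with hk
  have hk0 : 0 ≤ ∫ z : Fin n → ℝ, ‖kR 1 z‖ := integral_nonneg fun _ => norm_nonneg _
  have hk1 : 0 < k := by linarith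
  refine ⟨C0 * (C1 * k) ^ (p - 4) * C4, by positivity, ?_⟩
  intro g₀ hg₀ R hR F hFm hFi hFb
  have hR0 : 0 < R := by linarith
  have hy0 : 0 < R⁻¹ := by positivity
  have hy1 : R⁻¹ ≤ 1 := inv_le_one_of_one_le₀ hR
  set Ai : ℝ := C1 * k * R ^ (((n : ℝ) - 1) / 2 + M) with hAi
  have hAi0 : 0 < Ai := by positivity
  have hRy : (R⁻¹ : ℝ) ^ (-(((n : ℝ) - 1) / 2 + M)) = R ^ (((n : ℝ) - 1) / 2 + M) := by
    rw [Real.inv_rpow hR0.le, Real.rpow_neg hR0.le, inv_inv]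
  have h5 := hI ((Fin n → ℝ) × ℝ × (Fin n → ℝ)) ((volume.restrict (box n)).prod
        ((volume.restrict (Set.Icc (1 : ℝ) 2)).prod (volume : Measure (Fin n → ℝ)))) n
    (fun F q => VI I g₀ M R F q) (ENNReal.ofReal (C4 * R ^ ((M : ℝ) * 4 + ε))) Ai hAi0
    (fun F _ hF _ => (meas_VI I g₀ M hR0 hF).aestronglyMeasurable)
    (fun F hF hi hb => h4 g₀ hg₀ R hR F hF hi hb)
    (fun F hF hi B hB => by
      filter_upwards [ae_box] with q hq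
      have h6 := h1 _ (mix_mem I g₀ q.1 hg₀ hq.1) R⁻¹ q.2.1 hy0 hy1 hq.2
      rw [hRy] at h6
      have hB0 : 0 ≤ B := (norm_nonneg _).trans (hB 0)
      have hPsi : ∀ u, ‖Psi R F u‖ ≤ k * B := fun u =>
        (norm_Psi_le hR0 hi hB u).trans (mul_le_mul_of_nonneg_right (by linarith) hB0)
      have h7 : ‖VI I g₀ M R F q‖ₑ ≤ ENNReal.ofReal (Ai * B) := by
        unfold VI VT
        calc ‖∫ u, KM M n R⁻¹ (q.2.1 ^ 2 - R⁻¹ ^ 2 / q.2.1 ^ 2) (mix I g₀ q.1) (q.2.2 - u) *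
              Psi R F u‖ₑ
            ≤ ∫⁻ u, ‖KM M n R⁻¹ (q.2.1 ^ 2 - R⁻¹ ^ 2 / q.2.1 ^ 2) (mix I g₀ q.1) (q.2.2 - u) *
                Psi R F u‖ₑ := enorm_integral_le_lintegral_enorm _
          _ ≤ ∫⁻ u, ‖KM M n R⁻¹ (q.2.1 ^ 2 - R⁻¹ ^ 2 / q.2.1 ^ 2) (mix I g₀ q.1)
                (q.2.2 - u)‖ₑ * ENNReal.ofReal (k * B) := by
              refine lintegral_mono fun u => ?_
              simp only [enorm_mul]
              refine mul_le_mul' le_rfl ?_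
              rw [← ofReal_norm]
              exact ENNReal.ofReal_le_ofReal (hPsi u)
          _ = (∫⁻ u, ‖KM M n R⁻¹ (q.2.1 ^ 2 - R⁻¹ ^ 2 / q.2.1 ^ 2) (mix I g₀ q.1) u‖ₑ) *
                ENNReal.ofReal (k * B) := by
              rw [lintegral_mul_const' _ _ ENNReal.ofReal_ne_top]
              congr 1
              exact lintegral_sub_left_eq_self
                (fun u => ‖KM M n R⁻¹ (q.2.1 ^ 2 - R⁻¹ ^ 2 / q.2.1 ^ 2) (mix I g₀ q.1) u‖ₑ)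
                q.2.2
          _ ≤ ENNReal.ofReal (C1 * R ^ (((n : ℝ) - 1) / 2 + M)) * ENNReal.ofReal (k * B) :=
              mul_le_mul' h6 le_rfl
          _ = _ := by
              rw [← ENNReal.ofReal_mul (by positivity)]
              congr 1
              rw [hAi]
              ring
      rw [← ofReal_norm] at h7
      exact (ENNReal.ofReal_le_ofReal_iff (by positivity)).1 h7)
    (fun F G hF hFi' _ hG hGi' _ q => by
      unfold VI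
      rw [VT_add M hR0 hFi' hGi']
      exact norm_add_le _ _)
    F hFm hFi hFb
  refine h5.trans (le_of_eq ?_)
  congr 1
  rw [← ENNReal.ofReal_mul (by positivity)]
  congr 1
  rw [hAi, Real.mul_rpow (by positivity) (by positivity), ← Real.rpow_mul hR0.le]
  have e1 : C0 * ((C1 * k) ^ (p - 4) * R ^ ((((n : ℝ) - 1) / 2 + M) * (p - 4))) *
      (C4 * R ^ ((M : ℝ) * 4 + ε)) = C0 * (C1 * k) ^ (p - 4) * C4 *
        R ^ ((((n : ℝ) - 1) / 2 + M) * (p - 4) + ((M : ℝ) * 4 + ε)) := by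
    rw [Real.rpow_add hR0 ((((n : ℝ) - 1) / 2 + M) * (p - 4))]
    ring
  rw [e1]
  congr 2
  ring

theorem s_rpI (n : ℕ) : S_r2I n → S_l1 n → S_rpI n := by
  intro h2 hl hn M I e hM h4 p hp
  by_cases hp4 : p ≤ 4
  · rw [if_pos hp4]
    rcases hp.eq_or_lt with rfl | hp2
    · have h := h2 hn M I
      have e0 : e * (((2 : ℝ) - 2) / 2) = 0 := by norm_num
      rwa [e0]
    rcases hp4.eq_or_lt with rfl | hp4'
    · have e0 : e * (((4 : ℝ) - 2) / 2) = e := by norm_num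
      rwa [e0]
    exact rpI_lo (h2 hn M I) h4 hp2 hp4'
  · rw [if_neg hp4]
    exact rpI_hi hn hM hl h4 (not_le.1 hp4)

end Pool.Agent.T9h41.LG
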